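import Pool.Agent.Q179.HS.Unknots

/-!
# Virtual knot diagrams with a given shadow

A choice `w : Fin N → Option Bool` makes every double point of the shadow `G : GaussWord N` a virtual crossing
(`none`), a positive classical crossing (`some true`) or a negative classical crossing (`some false`).
-/

set_option autoImplicit false

namespace Pool.Agent.Q179.RV

open Finset Function LaurentPolynomial Pool.Agent.H832R2.JR Pool.Agent.Q179.HS

variable {N : ℕ}

/-- the sign of a crossing, `0` for a virtual crossing -/
def sv : Option Bool → ℤ
  | none => 0
  | some b => sgn b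

/-- the factor of a double point in a state: the strands pass through a virtual crossing (`0`), at a classical
crossing of sign `ε` the oriented smoothing (`1`) has the factor `A^ε`, the unoriented one (`2`) the factor
`A^(-ε)` -/
noncomputable def loc : Option Bool → Fin 3 → ℤ[T;T⁻¹]
  | none, k => if k = 0 then 1 else 0
  | some b, k => if k = 0 then 0 else if k = 1 then T (sgn b) else T (-sgn b)

/-- the Kauffman bracket of the virtual knot diagram with the shadow `G` and the choices `w` (`L G t` is the
number of closed curves if the strands at the double point `c` pass through for `t c = 0`, are smoothed in the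
oriented way for `t c = 1` and in the unoriented way for `t c = 2`) -/
noncomputable def bracketV (G : GaussWord N) (w : Fin N → Option Bool) : ℤ[T;T⁻¹] :=
  ∑ t : Fin N → Fin 3, (∏ c, loc (w c) (t c)) * (-T 2 - T (-2)) ^ (L G t - 1)

/-- the writhe -/
def writheV (w : Fin N → Option Bool) : ℤ := ∑ c, sv (w c)

/-- the normalised Kauffman bracket `f = (-A^{-3})^{writhe} ⟨G, w⟩` of a virtual knot diagram; the Jones
polynomial is obtained by `A = t^{-1/4}` -/
noncomputable def fV (G : GaussWord N) (w : Fin N → Option Bool) : ℤ[T;T⁻¹] :=
  (if Even (writheV w) then 1 else -1) * T (-3 * writheV w) * bracketV G w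

/-- the factor of a double point in the normalised bracket -/
noncomputable def phi (o : Option Bool) (k : Fin 3) : ℤ[T;T⁻¹] :=
  (if o = none then 1 else -1) * T (-3 * sv o) * loc o k

theorem even_sum (f : Fin N → ℤ) : ∀ S : Finset (Fin N),
    (if Even (∑ c ∈ S, f c) then (1 : ℤ[T;T⁻¹]) else -1) = ∏ c ∈ S, (if Even (f c) then 1 else -1) := by
  intro S
  induction S using Finset.induction_on with
  | empty => simp
  | insert c S hc ih =>
    rw [sum_insert hc, prod_insert hc, ← ih]
    by_cases h1 : Even (f c) <;> by_cases h2 : Even (∑ c ∈ S, f c) <;> simp [Int.even_add, h1, h2]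

theorem even_sv (o : Option Bool) : Even (sv o) ↔ o = none := by
  rcases o with _ | _ | _
  · simp [sv]
  · simp [sv, sgn]
  · simp [sv, sgn]

theorem fV_eq (G : GaussWord N) (w : Fin N → Option Bool) :
    fV G w = ∑ t : Fin N → Fin 3, (∏ c, phi (w c) (t c)) * dl ^ (L G t - 1) := by
  unfold fV bracketV writheV
  rw [even_sum, mul_sum, mul_sum, T_sum, ← prod_mul_distrib]
  refine sum_congr rfl fun t _ => ?_
  rw [← mul_assoc, ← prod_mul_distrib]
  congr 1
  refine prod_congr rfl fun c _ => ?_
  unfold phi
  simp only [even_sv]

/-- on the classical diagrams this is the bracket of the starting library -/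
theorem fV_some (G : GaussWord N) (w : Fin N → Bool) : fV G (fun c => some (w c)) = fPoly G w := by
  unfold fV fPoly bracketV bracket
  have h1 : writheV (fun c => some (w c)) = writhe w := rfl
  rw [h1]
  congr 1
  symm
  refine Fintype.sum_of_injective tri ?_ _ _ ?_ ?_
  · intro s s' h
    funext c
    have h1 := congrFun h c
    unfold tri at h1
    cases hs : s c <;> cases hs' : s' c <;> simp_all
  · intro t ht
    have : ∃ c, t c = 0 := by
      by_contra hcon
      push Not at hcon
      apply ht
      refine ⟨fun c => decide (t c = 1), ?_⟩
      funext c
      have := hcon c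
      unfold tri
      by_cases h1 : t c = 1
      · simp [h1]
      · simp only [h1, decide_false, Bool.false_eq_true, if_false]
        omega
    obtain ⟨c, hc⟩ := this
    rw [prod_eq_zero (mem_univ c), zero_mul]
    simp [loc, hc]
  · intro s
    rw [loops_eq]
    congr 1
    unfold weight
    rw [T_sum]
    refine prod_congr rfl fun c _ => ?_
    unfold tri
    beta_reduce
    generalize w c = x
    generalize s c = y
    cases x <;> cases y <;> simp [loc, sgn]

end Pool.Agent.Q179.RV
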