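import Pool.Agent.Q179.RV.Main
import Pool.Agent.Q179.HS.Planar

/-!
# The extremal shadows
-/

set_option autoImplicit false

namespace Pool.Agent.Q179.RV

open Finset Function Pool.Agent.H832R2.JR Pool.Agent.Q179.HS LaurentPolynomial

variable {N : ℕ}

theorem phi_none (k : Fin 3) : phi none k = if k = 0 then 1 else 0 := by
  unfold phi
  simp [sv, loc]

theorem phi_zero (b : Bool) : phi (some b) 0 = 0 := by
  unfold phi
  simp [loc]

theorem phi_one (b : Bool) : phi (some b) 1 = - T (-2 * sgn b) := by
  unfold phi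
  simp only [loc, sv, reduceCtorEq, if_false, one_ne_zero, if_true]
  rw [mul_assoc, ← T_add]
  rw [show -3 * sgn b + sgn b = -2 * sgn b by ring]
  ring

theorem phi_two (b : Bool) : phi (some b) 2 = - T (-4 * sgn b) := by
  unfold phi
  simp only [loc, sv, reduceCtorEq, if_false]
  rw [if_neg (by decide), if_neg (by decide), mul_assoc, ← T_add]
  rw [show -3 * sgn b + -sgn b = -4 * sgn b by ring]
  ring

/-- if no two classical crossings have crossing chords, then the bracket is `1` -/
theorem fV_laminar (G : GaussWord N) (i : Fin N) (w : Fin N → Option Bool)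
    (hlam : ∀ c d, c ≠ d → w c ≠ none → w d ≠ none → ¬ Crosses G c d) : fV G w = 1 := by
  rw [fV_eq]
  have h1 : ∀ t : Fin N → Fin 3, (∏ c, phi (w c) (t c)) * dl ^ (L G t - 1) =
      ∏ c, phi (w c) (t c) * (if t c = 1 then dl else 1) := by
    intro t
    rw [prod_mul_distrib]
    by_cases h : ∀ c, t c ≠ 0 → w c ≠ none
    · have h2 := L_laminar G i _ t rfl (fun c d hcd hc hd => hlam c d hcd (h c hc) (h d hd))
      rw [h2, Nat.add_sub_cancel_left]
      congr 1
      rw [prod_ite, prod_const, prod_const_one, mul_one]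
    · push Not at h
      obtain ⟨c, hc, hw⟩ := h
      have h2 : ∏ c, phi (w c) (t c) = 0 := by
        refine prod_eq_zero (mem_univ c) ?_
        rw [hw, phi_none, if_neg hc]
      rw [h2, zero_mul, zero_mul]
  rw [sum_congr rfl (fun t _ => h1 t)]
  have h2 := (prod_univ_sum (fun _ : Fin N => (univ : Finset (Fin 3)))
    (fun c k => phi (w c) k * (if k = 1 then dl else 1))).symm
  rw [Fintype.piFinset_univ] at h2
  rw [h2]
  refine prod_eq_one fun c _ => ?_
  rw [Fin.sum_univ_three]
  rcases w c with _ | b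
  · rw [phi_none, phi_none, phi_none]
    simp
  · rw [phi_zero, phi_one, phi_two]
    simp only [zero_mul, zero_add, if_true, show (2 : Fin 3) ≠ 1 by decide, if_false, mul_one]
    unfold dl
    rw [neg_mul, mul_sub, mul_neg, ← T_add, ← T_add]
    cases b
    · simp only [sgn, Bool.false_eq_true, if_false]
      norm_num
    · simp only [sgn, if_true]
      norm_num

/-- the second Reidemeister move -/
theorem R2_fV (G : GaussWord N) (a b : Fin N) (hab : a ≠ b) (h : Parallel G a b)
    (w : Fin N → Option Bool) (x : Bool) (ha : w a = some x) (hb : w b = some (!x)) :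
    fV G w = fV G (update (update w a none) b none) := by
  set w' := update (update w a none) b none with hw'
  have ha' : w' a = none := by rw [hw', update_of_ne hab, update_self]
  have hb' : w' b = none := by rw [hw', update_self]
  have hc' : ∀ c, c ≠ a → c ≠ b → w' c = w c := by
    intro c h1 h2
    rw [hw', update_of_ne h2, update_of_ne h1]
  let R : (Fin N → Fin 3) → ℤ[T;T⁻¹] := fun t => ∏ c ∈ (univ.erase a).erase b, phi (w c) (t c)
  have hprod : ∀ (z : Fin N → Option Bool), (∀ c, c ≠ a → c ≠ b → z c = w c) →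
      ∀ (t : Fin N → Fin 3) (k l : Fin 3), ∏ c, phi (z c) (update (update t a k) b l c) =
      phi (z a) k * (phi (z b) l * R t) := by
    intro z hz t k l
    rw [← mul_prod_erase univ _ (mem_univ a),
      ← mul_prod_erase (univ.erase a) _ (mem_erase.2 ⟨hab.symm, mem_univ b⟩), update_of_ne hab,
      update_self, update_self]
    congr 2
    refine prod_congr rfl fun c hc => ?_
    rw [mem_erase, mem_erase] at hc
    rw [update_of_ne hc.1, update_of_ne hc.2.1, hz c hc.2.1 hc.1]
  have h9 : ∀ H : (Fin N → Fin 3) → ℤ[T;T⁻¹], 9 * ∑ t, H t =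
      ∑ t, ∑ k, ∑ l, H (update (update t a k) b l) := by
    intro H
    have h1 := sum_update' (R := ℤ[T;T⁻¹]) b H
    have h2 := sum_update' (R := ℤ[T;T⁻¹]) a (fun t => ∑ l, H (update t b l))
    rw [h2, h1]
    simp only [Fintype.card_fin]
    push_cast
    ring
  have key : 9 * fV G w = 9 * fV G w' := by
    rw [fV_eq, fV_eq, h9, h9]
    refine sum_congr rfl fun t _ => ?_
    simp only [hprod w (fun c _ _ => rfl), hprod w' hc', ha, hb, ha', hb', Fin.sum_univ_three,
      phi_none, phi_zero, phi_one, phi_two]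
    have e11 := par_swap G a b hab h t
    have q1 := par_a G a b hab h (update t b 2) (update_self ..) 1 (by decide)
    rw [update_comm hab.symm, update_comm hab.symm (2 : Fin 3) (1 : Fin 3) t] at q1
    have q2 := par_b G a b hab h (update t a 2) (update_self ..) 1 (by decide)
    have p1 := one_le_L G (update (update t a 1) b 2) a
    obtain ⟨m, hm⟩ : ∃ m, L G (update (update t a 1) b 2) = m + 1 := ⟨_, (Nat.sub_add_cancel p1).symm⟩
    have hm2 : L G (update (update t a 2) b 1) = m + 1 := by omega
    have hm3 : L G (update (update t a 2) b 2) = m + 2 := by omega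
    rw [hm, hm2, hm3, e11]
    simp only [Nat.add_sub_cancel, show m + 2 - 1 = m + 1 by omega]
    have hs : sgn (!x) = - sgn x := sgn_not x
    rw [hs]
    set Z := dl ^ (L G (update (update t a 0) b 0) - 1) with hZ
    have k1 : T (-2 * sgn x) * T (-2 * -sgn x) = (1 : ℤ[T;T⁻¹]) := by
      rw [← T_add]; simp
    have k2 : T (-4 * sgn x) * T (-4 * -sgn x) = (1 : ℤ[T;T⁻¹]) := by
      rw [← T_add]; simp
    have k3 : T (-2 * sgn x) * T (-4 * -sgn x) + T (-4 * sgn x) * T (-2 * -sgn x) = (-dl : ℤ[T;T⁻¹]) := by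
      unfold dl
      rw [← T_add, ← T_add]
      cases x
      · simp only [sgn, Bool.false_eq_true, if_false]
        norm_num
        try ring
      · simp only [sgn, if_true]
        norm_num
        try ring
    simp only [if_true, show (1 : Fin 3) ≠ 0 by decide, show (2 : Fin 3) ≠ 0 by decide, if_false,
      zero_mul, mul_zero, add_zero, zero_add, one_mul]
    calc _ = R t * ((T (-2 * sgn x) * T (-2 * -sgn x)) * Z +
          (T (-2 * sgn x) * T (-4 * -sgn x) + T (-4 * sgn x) * T (-2 * -sgn x)) * dl ^ m +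
          (T (-4 * sgn x) * T (-4 * -sgn x)) * dl ^ (m + 1)) := by ring
      _ = R t * Z := by rw [k1, k2, k3, pow_succ]; ring
  have h9' : (9 : ℤ[T;T⁻¹]) ≠ 0 := by
    intro h
    have h1 := congrFun (congrFun (congrArg rho h) 0) 0
    rw [map_zero, map_ofNat] at h1
    exact absurd h1 (by decide)
  exact mul_left_cancel₀ h9' key

theorem opp_one (n : ℕ) (w : Fin (n + 2) → Option Bool) (x : Bool) (ha : w ⟨n, by omega⟩ = some x)
    (hb : w ⟨n + 1, by omega⟩ = some (!x)) : fV (twWord n) w = 1 := by
  have hab : (⟨n, by omega⟩ : Fin (n + 2)) ≠ ⟨n + 1, by omega⟩ := by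
    rw [Ne, Fin.ext_iff]; simp
  rw [R2_fV (twWord n) _ _ hab (tw_parallel n) w x ha hb]
  refine fV_laminar _ ⟨n, by omega⟩ _ ?_
  intro c d _ hc hd
  rw [tw_crosses]
  rintro ⟨_, h⟩
  have h1 : ∀ c : Fin (n + 2), update (update w ⟨n, by omega⟩ none) ⟨n + 1, by omega⟩ none c ≠ none →
      (c : ℕ) < n := by
    intro c hc
    by_contra hcon
    have h2 := c.2
    rcases Nat.eq_or_lt_of_le (not_lt.1 hcon) with h3 | h3
    · have : c = ⟨n, by omega⟩ := Fin.ext h3.symm
      rw [this, update_of_ne hab, update_self] at hc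
      exact hc rfl
    · have : c = ⟨n + 1, by omega⟩ := Fin.ext (by simp only; omega)
      rw [this, update_self] at hc
      exact hc rfl
  have := h1 c hc
  have := h1 d hd
  omega

theorem none_one (n : ℕ) (w : Fin (n + 2) → Option Bool) (ha : w ⟨n, by omega⟩ = none)
    (hb : w ⟨n + 1, by omega⟩ = none) : fV (twWord n) w = 1 := by
  refine fV_laminar _ ⟨n, by omega⟩ _ ?_
  intro c d _ hc hd
  rw [tw_crosses]
  rintro ⟨_, h⟩
  have h1 : ∀ c : Fin (n + 2), w c ≠ none → (c : ℕ) < n := by
    intro c hc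
    by_contra hcon
    have h2 := c.2
    rcases Nat.eq_or_lt_of_le (not_lt.1 hcon) with h3 | h3
    · have : c = ⟨n, by omega⟩ := Fin.ext h3.symm
      rw [this] at hc
      exact hc ha
    · have : c = ⟨n + 1, by omega⟩ := Fin.ext (by simp only; omega)
      rw [this] at hc
      exact hc hb
  have := h1 c hc
  have := h1 d hd
  omega

theorem tw_many (n : ℕ) : 3 ^ (n + 1) ≤ Nat.card {w : Fin (n + 2) → Option Bool // fV (twWord n) w = 1} := by
  classical
  let ext : (Fin (n + 1) → Option Bool) → Fin (n + 2) → Option Bool := fun g c =>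
    if h : (c : ℕ) < n + 1 then g ⟨c, h⟩ else (g ⟨n, by omega⟩).map not
  have h1 : ∀ g, fV (twWord n) (ext g) = 1 := by
    intro g
    have ea : ext g ⟨n, by omega⟩ = g ⟨n, by omega⟩ := by simp [ext]
    have eb : ext g ⟨n + 1, by omega⟩ = (g ⟨n, by omega⟩).map not := by simp [ext]
    rcases hg : g ⟨n, by omega⟩ with _ | x
    · refine none_one n _ ?_ ?_
      · rw [ea, hg]
      · rw [eb, hg]; rfl
    · refine opp_one n _ x ?_ ?_
      · rw [ea, hg]
      · rw [eb, hg]; rfl
  have h2 : Injective (fun g => (⟨ext g, h1 g⟩ : {w : Fin (n + 2) → Option Bool // fV (twWord n) w = 1})) := by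
    intro g g' h
    have h3 : ext g = ext g' := congrArg Subtype.val h
    funext c
    have h4 := congrFun h3 ⟨c, by omega⟩
    have hc : ∀ g : Fin (n + 1) → Option Bool, ext g ⟨c, by omega⟩ = g c := by
      intro g
      simp only [ext]
      rw [dif_pos c.2]
    rwa [hc, hc] at h4
  have h3 := Nat.card_le_card_of_injective _ h2
  rw [Nat.card_eq_fintype_card, Fintype.card_fun, Fintype.card_option, Fintype.card_bool,
    Fintype.card_fin] at h3
  exact h3

theorem tw_seven : Nat.card {w : Fin 2 → Option Bool // fV (twWord 0) w = 1} = 7 := by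
  classical
  apply le_antisymm
  · have h := seven_ninths (twWord 0) 1 0 1 ((tw_crosses 0 0 1).2 ⟨by decide, Or.inl (Nat.zero_le _)⟩)
    have e : (7 * 3 ^ (0 + 2) : ℕ) = 9 * 7 := by norm_num
    rw [e] at h
    exact Nat.le_of_mul_le_mul_left h (by norm_num)
  · rw [Nat.card_eq_fintype_card, Fintype.card_subtype]
    have h2 : (univ.filter fun w : Fin 2 → Option Bool => w 0 = none ∨ w 1 = none ∨
        w 1 = (w 0).map not) ⊆ univ.filter fun w => fV (twWord 0) w = 1 := by
      intro w hw
      rw [mem_filter] at hw ⊢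
      refine ⟨mem_univ _, ?_⟩
      rcases hw.2 with h | h | h
      · refine fV_laminar _ 0 _ ?_
        intro c d hcd hc hd
        exfalso
        have h0 : ∀ c : Fin 2, w c ≠ none → c = 1 := by
          intro c hc
          fin_cases c
          · exact absurd h hc
          · rfl
        exact hcd ((h0 c hc).trans (h0 d hd).symm)
      · refine fV_laminar _ 0 _ ?_
        intro c d hcd hc hd
        exfalso
        have h0 : ∀ c : Fin 2, w c ≠ none → c = 0 := by
          intro c hc
          fin_cases c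
          · rfl
          · exact absurd h hc
        exact hcd ((h0 c hc).trans (h0 d hd).symm)
      · rcases hx : w 0 with _ | x
        · refine none_one 0 w hx ?_
          rw [hx] at h
          exact h
        · refine opp_one 0 w x hx ?_
          rw [hx] at h
          exact h
    have h3 : (univ.filter fun w : Fin 2 → Option Bool => w 0 = none ∨ w 1 = none ∨
        w 1 = (w 0).map not).card = 7 := by decide
    have h4 := card_le_card h2
    rw [h3] at h4
    exact h4

open Classical in
/-- many classes of chords -/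
theorem bound_classes (G : GaussWord N) (F : ℤ[T;T⁻¹]) :
    (Nat.card {w : Fin N → Option Bool // fV G w = F} : ℝ) * (classes G : ℝ) ^ (1 / 8 : ℝ) ≤ 9 * 3 ^ N := by
  obtain ⟨m, u, v, huv, hmax⟩ := exists_maximal G
  have h2 := bound_match G F u v huv
  have h3 := classes_le G u v hmax
  have h4 : (classes G : ℝ) ^ (1 / 8 : ℝ) ≤ 1.5 * (m : ℝ) ^ (1 / 8 : ℝ) := by
    have h5 : (classes G : ℝ) ≤ 10 * (m : ℝ) := by exact_mod_cast h3
    calc (classes G : ℝ) ^ (1 / 8 : ℝ) ≤ (10 * (m : ℝ)) ^ (1 / 8 : ℝ) :=
          Real.rpow_le_rpow (by positivity) h5 (by norm_num)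
      _ = 10 ^ (1 / 8 : ℝ) * (m : ℝ) ^ (1 / 8 : ℝ) :=
          Real.mul_rpow (by norm_num) (by positivity)
      _ ≤ 1.5 * (m : ℝ) ^ (1 / 8 : ℝ) := by
          gcongr
          have h6 : (10 : ℝ) ≤ 1.5 ^ (8 : ℕ) := by norm_num
          calc (10 : ℝ) ^ (1 / 8 : ℝ) ≤ ((1.5 : ℝ) ^ (8 : ℕ)) ^ (1 / 8 : ℝ) :=
                Real.rpow_le_rpow (by norm_num) h6 (by norm_num)
            _ = 1.5 := by
                rw [← Real.rpow_natCast, ← Real.rpow_mul (by norm_num)]
                norm_num
  calc (Nat.card {w : Fin N → Option Bool // fV G w = F} : ℝ) * (classes G : ℝ) ^ (1 / 8 : ℝ)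
      ≤ (Nat.card {w : Fin N → Option Bool // fV G w = F} : ℝ) * (1.5 * (m : ℝ) ^ (1 / 8 : ℝ)) := by
        gcongr
    _ = 1.5 * ((Nat.card {w : Fin N → Option Bool // fV G w = F} : ℝ) * (m : ℝ) ^ (1 / 8 : ℝ)) := by
        ring
    _ ≤ 1.5 * (6 * 3 ^ N) := by gcongr
    _ = 9 * 3 ^ N := by ring

end Pool.Agent.Q179.RV
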