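import Pool.Agent.Q179.RV.Third

/-!
# The bounds for random virtual diagrams with a given shadow
-/

set_option autoImplicit false

namespace Pool.Agent.Q179.RV

open Finset Function Pool.Agent.H832R2.JR Pool.Agent.Q179.HS LaurentPolynomial

variable {N : ℕ}

open Classical in
/-- a quadratic form with `m` disjoint mixed terms -/
theorem match_bound (A : Fin N → Fin N → ℤ) (hA : ∀ i j, A i j = A j i) {m : ℕ} (u v : Fin m → Fin N)
    (hu : Injective u) (hv : Injective v) (huv : ∀ k l, u k ≠ v l)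
    (hdiag : ∀ k, A (u k) (v k) ≠ 0) (hm : 0 < m) (c : (Fin N → Fin 3) → ℤ) :
    ((univ.filter fun x : Fin N → Fin 3 × Bool =>
      ∑ i, ∑ j, A i j * (val (x i) * val (x j)) = c (fun i => (x i).1)).card : ℝ) ≤
      (9 / (m : ℝ) + 4 * (9 / (m : ℝ)) ^ (1 / 8 : ℝ)) * 6 ^ N := by
  let AT : (Fin N → Fin 3) → Fin N → Fin N → ℤ := fun t i j => if t i = 0 ∨ t j = 0 then 0 else A i j
  have hAT : ∀ t i j, AT t i j = AT t j i := by
    intro t i j
    simp only [AT]
    rw [hA i j]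
    by_cases h1 : t i = 0 <;> by_cases h2 : t j = 0 <;> simp [h1, h2]
  let nT : (Fin N → Fin 3) → ℕ := fun t => (univ.filter fun s : Fin N → Bool => Q (AT t) s = c t).card
  have hcount : (univ.filter fun x : Fin N → Fin 3 × Bool =>
      ∑ i, ∑ j, A i j * (val (x i) * val (x j)) = c (fun i => (x i).1)).card =
      ∑ t : Fin N → Fin 3, nT t := by
    have h1 : (univ.filter fun x : Fin N → Fin 3 × Bool =>
        ∑ i, ∑ j, A i j * (val (x i) * val (x j)) = c (fun i => (x i).1)).card =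
        (univ.filter fun p : (Fin N → Fin 3) × (Fin N → Bool) => Q (AT p.1) p.2 = c p.1).card := by
      refine card_equiv (Equiv.arrowProdEquivProdArrow (Fin N) (fun _ => Fin 3) (fun _ => Bool)) ?_
      intro x
      simp only [mem_filter, mem_univ, true_and, Equiv.arrowProdEquivProdArrow, Equiv.coe_fn_mk]
      have h2 : ∑ i, ∑ j, A i j * (val (x i) * val (x j)) = Q (AT fun i => (x i).1) (fun i => (x i).2) := by
        unfold Q
        refine sum_congr rfl fun i _ => sum_congr rfl fun j _ => ?_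
        simp only [AT]
        unfold val
        by_cases h1 : (x i).1 = 0 <;> by_cases h2 : (x j).1 = 0 <;> simp [h1, h2]
      rw [h2]
    rw [h1, card_filter, Fintype.sum_prod_type]
    refine sum_congr rfl fun t _ => ?_
    simp only [nT, card_filter]
  let S : (Fin N → Fin 3) → Finset (Fin m) := fun t => univ.filter fun k => t (u k) ≠ 0 ∧ t (v k) ≠ 0
  have hn1 : ∀ t, (nT t : ℝ) ≤ 2 ^ N := by
    intro t
    have : nT t ≤ 2 ^ N := by
      refine (card_le_univ _).trans ?_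
      rw [Fintype.card_fun, Fintype.card_bool, Fintype.card_fin]
    exact_mod_cast this
  have hn2 : ∀ t, (nT t : ℝ) * ((S t).card : ℝ) ^ (1 / 8 : ℝ) ≤ 4 * 2 ^ N := by
    intro t
    let ee : Fin (S t).card ≃ S t := (S t).equivFin.symm
    have h1 := matching_bound' (AT t) (hAT t) (fun l => u (ee l)) (fun l => v (ee l))
      (fun a b h => ee.injective (Subtype.ext (hu h))) (fun a b h => ee.injective (Subtype.ext (hv h)))
      (fun k l => huv _ _) (by
        intro l
        have h2 := (ee l).2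
        simp only [S, mem_filter, mem_univ, true_and] at h2
        simp only [AT]
        rw [if_neg (not_or.2 h2)]
        exact hdiag _) (c t)
    convert h1
  set mm : ℝ := (m : ℝ) with hmm
  have hmr : (0 : ℝ) < mm := by rw [hmm]; exact_mod_cast hm
  set D : Finset (Fin N) := univ.image u ∪ univ.image v with hD
  have hDc : D.card = 2 * m := by
    rw [hD, card_union_of_disjoint, card_image_of_injective _ hu, card_image_of_injective _ hv,
      card_univ, Fintype.card_fin]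
    · ring
    · rw [disjoint_left]
      intro i hi hi'
      rw [mem_image] at hi hi'
      obtain ⟨k, _, rfl⟩ := hi
      obtain ⟨l, _, h⟩ := hi'
      exact huv k l h.symm
  have hDt : ∀ t : Fin N → Fin 3, (D.filter fun i => t i ≠ 0).card ≤ m + (S t).card := by
    intro t
    have h1 : (D.filter fun i => t i ≠ 0) ⊆ ((univ.filter fun k => t (u k) ≠ 0).image u) ∪
        ((univ.filter fun k => t (v k) ≠ 0).image v) := by
      intro i hi
      rw [mem_filter, hD, mem_union, mem_image, mem_image] at hi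
      rcases hi with ⟨⟨k, _, rfl⟩ | ⟨k, _, rfl⟩, h⟩
      · exact mem_union_left _ (mem_image_of_mem _ (mem_filter.2 ⟨mem_univ _, h⟩))
      · exact mem_union_right _ (mem_image_of_mem _ (mem_filter.2 ⟨mem_univ _, h⟩))
    have h2 := (card_le_card h1).trans (card_union_le _ _)
    rw [card_image_of_injective _ hu, card_image_of_injective _ hv] at h2
    have h3 := card_union_add_card_inter (univ.filter fun k => t (u k) ≠ 0) (univ.filter fun k => t (v k) ≠ 0)
    have h4 : (univ.filter fun k => t (u k) ≠ 0) ∩ (univ.filter fun k => t (v k) ≠ 0) = S t := by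
      ext k
      simp [S]
    rw [h4] at h3
    have h5 := card_le_univ ((univ.filter fun k => t (u k) ≠ 0) ∪ (univ.filter fun k => t (v k) ≠ 0))
    rw [Fintype.card_fin] at h5
    omega
  set a : ℕ := (2 * m + 2) / 3 with ha
  have ha1 : 2 * m ≤ 3 * a := by omega
  set B := univ.filter fun t : Fin N → Fin 3 => (a : ℤ) ≤ ∑ i ∈ D, zz (t i) with hB
  have hch := cheb D a
  rw [hDc, Fintype.card_fin] at hch
  have h3N : (0 : ℝ) < 3 ^ N := by positivity
  have hBcard : (B.card : ℝ) ≤ 9 / mm * 3 ^ N := by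
    have h1 : (2 * mm) ^ 2 ≤ (3 * (a : ℝ)) ^ 2 := by
      have : 2 * mm ≤ 3 * (a : ℝ) := by rw [hmm]; exact_mod_cast ha1
      gcongr
    have h2 : (B.card : ℝ) * (4 * mm ^ 2) ≤ 36 * mm * 3 ^ N := by
      calc (B.card : ℝ) * (4 * mm ^ 2) = B.card * (2 * mm) ^ 2 := by ring
        _ ≤ B.card * (3 * (a : ℝ)) ^ 2 := by gcongr
        _ = 9 * (B.card * (a : ℝ) ^ 2) := by ring
        _ ≤ 9 * (2 * ((2 * m : ℕ) : ℝ) * 3 ^ N) := by gcongr
        _ = 36 * mm * 3 ^ N := by push_cast; ring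
    have h3 : (B.card : ℝ) * mm ≤ 9 * 3 ^ N := by
      have : (B.card : ℝ) * mm * (4 * mm) ≤ 9 * 3 ^ N * (4 * mm) := by nlinarith [h2]
      exact le_of_mul_le_mul_right this (by positivity)
    rw [div_mul_eq_mul_div, le_div_iff₀ hmr]
    exact h3
  have hgood : ∀ t, t ∉ B → (nT t : ℝ) ≤ 4 * (9 / mm) ^ (1 / 8 : ℝ) * 2 ^ N := by
    intro t ht
    rw [hB, mem_filter, not_and] at ht
    have h1 := ht (mem_univ t)
    rw [sum_zz, not_le, hDc] at h1
    have h2 : m ≤ 9 * (S t).card := by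
      have h3 := hDt t
      push_cast at h1
      omega
    have hS0 : 0 < (S t).card := by omega
    have hSr : (0 : ℝ) < ((S t).card : ℝ) := by exact_mod_cast hS0
    have h4 : mm / 9 ≤ ((S t).card : ℝ) := by
      rw [div_le_iff₀ (by norm_num)]
      rw [hmm]
      have : (m : ℝ) ≤ 9 * ((S t).card : ℝ) := by exact_mod_cast h2
      linarith
    have h5 : (nT t : ℝ) * (mm / 9) ^ (1 / 8 : ℝ) ≤ 4 * 2 ^ N :=
      (mul_le_mul_of_nonneg_left (Real.rpow_le_rpow (by positivity) h4 (by norm_num))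
        (by positivity)).trans (hn2 t)
    have h6 : (9 / mm) ^ (1 / 8 : ℝ) * (mm / 9) ^ (1 / 8 : ℝ) = 1 := by
      rw [← Real.mul_rpow (by positivity) (by positivity)]
      have : 9 / mm * (mm / 9) = 1 := by field_simp
      rw [this, Real.one_rpow]
    have h7 : 0 < (mm / 9) ^ (1 / 8 : ℝ) := Real.rpow_pos_of_pos (by positivity) _
    refine le_of_mul_le_mul_right ?_ h7
    calc (nT t : ℝ) * (mm / 9) ^ (1 / 8 : ℝ) ≤ 4 * 2 ^ N := h5
      _ = 4 * ((9 / mm) ^ (1 / 8 : ℝ) * (mm / 9) ^ (1 / 8 : ℝ)) * 2 ^ N := by rw [h6]; ring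
      _ = _ := by ring
  rw [hcount]
  push_cast
  have h6N : (6 : ℝ) ^ N = 2 ^ N * 3 ^ N := by rw [← mul_pow]; norm_num
  rw [← sum_filter_add_sum_filter_not univ (fun t => t ∈ B)]
  have hb1 : ∑ t ∈ univ.filter (fun t => t ∈ B), (nT t : ℝ) ≤ 9 / mm * (2 ^ N * 3 ^ N) := by
    have e1 : univ.filter (fun t => t ∈ B) = B := by ext; simp
    rw [e1]
    calc ∑ t ∈ B, (nT t : ℝ) ≤ ∑ t ∈ B, (2 : ℝ) ^ N := sum_le_sum fun t _ => hn1 t
      _ = (B.card : ℝ) * 2 ^ N := by rw [sum_const, nsmul_eq_mul]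
      _ ≤ 9 / mm * 3 ^ N * 2 ^ N := by gcongr
      _ = _ := by ring
  have hb2 : ∑ t ∈ univ.filter (fun t => ¬ t ∈ B), (nT t : ℝ) ≤
      4 * (9 / mm) ^ (1 / 8 : ℝ) * (2 ^ N * 3 ^ N) := by
    calc ∑ t ∈ univ.filter (fun t => ¬ t ∈ B), (nT t : ℝ) ≤
          ∑ t ∈ univ.filter (fun t => ¬ t ∈ B), (4 * (9 / mm) ^ (1 / 8 : ℝ) * 2 ^ N) :=
          sum_le_sum fun t ht => hgood t (mem_filter.1 ht).2
      _ ≤ ∑ t : Fin N → Fin 3, (4 * (9 / mm) ^ (1 / 8 : ℝ) * 2 ^ N) :=
          sum_le_sum_of_subset_of_nonneg (filter_subset _ _) (fun _ _ _ => by positivity)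
      _ = 4 * (9 / mm) ^ (1 / 8 : ℝ) * (2 ^ N * 3 ^ N) := by
          rw [sum_const, card_univ, card_pow3, Fintype.card_fin, nsmul_eq_mul]
          push_cast
          ring
  rw [h6N]
  linarith

/-- the choice at a double point -/
def opt (x : Fin 3 × Bool) : Option Bool := if x.1 = 0 then none else some x.2

/-- every choice is obtained twice -/
def optEquiv : Fin 3 × Bool ≃ Option Bool × Bool where
  toFun x := (opt x, if x.1 = 0 then x.2 else decide (x.1 = 2))
  invFun y := match y with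
    | (none, b) => (0, b)
    | (some b, false) => (1, b)
    | (some b, true) => (2, b)
  left_inv x := by
    rcases x with ⟨k, b⟩
    fin_cases k <;> simp [opt]
  right_inv y := by
    rcases y with ⟨_ | b, _ | _⟩ <;> simp [opt]

theorem sv_opt (x : Fin 3 × Bool) : sv (opt x) = val x := by
  unfold opt val
  split_ifs <;> rfl

theorem transfer (H : (Fin N → Option Bool) → ℕ) :
    ∑ x : Fin N → Fin 3 × Bool, H (fun i => opt (x i)) = 2 ^ N * ∑ w, H w := by
  have h1 : ∑ x : Fin N → Fin 3 × Bool, H (fun i => opt (x i)) =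
      ∑ q : (Fin N → Option Bool) × (Fin N → Bool), H q.1 := by
    refine Fintype.sum_equiv ((Equiv.piCongrRight fun _ => optEquiv).trans
      (Equiv.arrowProdEquivProdArrow (Fin N) (fun _ => Option Bool) (fun _ => Bool))) _ _ ?_
    intro x
    rfl
  rw [h1, Fintype.sum_prod_type]
  simp [mul_sum]

open Classical in
theorem card_le_val (G : GaussWord N) (F : ℤ[T;T⁻¹]) (i₀ : Fin N) :
    ∃ c : (Fin N → Fin 3) → ℤ, 2 ^ N * Nat.card {w : Fin N → Option Bool // fV G w = F} ≤
      (univ.filter fun x : Fin N → Fin 3 × Bool =>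
        ∑ i, ∑ j, adjm G i j * (val (x i) * val (x j)) = c (fun i => (x i).1)).card := by
  obtain ⟨K, hK⟩ := second_momentV G i₀
  refine ⟨fun t => (K (univ.filter fun i => t i = 0) - rho F 0 2) / 12, ?_⟩
  rw [Nat.card_eq_fintype_card, Fintype.card_subtype, card_filter,
    ← transfer (fun w => if fV G w = F then 1 else 0), ← card_filter]
  refine card_le_card fun x hx => ?_
  rw [mem_filter] at hx ⊢
  refine ⟨mem_univ _, ?_⟩
  have h1 := hK (fun i => opt (x i))
  rw [hx.2] at h1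
  have h2 : vset (fun i => opt (x i)) = univ.filter fun i => (x i).1 = 0 := by
    unfold vset
    ext i
    simp only [mem_filter, mem_univ, true_and]
    unfold opt
    by_cases h : (x i).1 = 0 <;> simp [h]
  have h3 : QV G (fun i => opt (x i)) = ∑ i, ∑ j, adjm G i j * (val (x i) * val (x j)) := by
    unfold QV
    simp only [sv_opt]
  rw [h2, h3] at h1
  beta_reduce
  rw [show K (univ.filter fun i => (x i).1 = 0) - rho F 0 2 =
    12 * ∑ i, ∑ j, adjm G i j * (val (x i) * val (x j)) by linarith]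
  exact (Int.mul_ediv_cancel_left _ (by norm_num)).symm

/-- **many disjoint pairs of crossing chords** -/
theorem bound_match (G : GaussWord N) (F : ℤ[T;T⁻¹]) {m : ℕ} (u v : Fin m → Fin N)
    (h : IsMatching G u v) :
    (Nat.card {w : Fin N → Option Bool // fV G w = F} : ℝ) * (m : ℝ) ^ (1 / 8 : ℝ) ≤ 6 * 3 ^ N := by
  classical
  obtain ⟨hu, hv, huv, hcr⟩ := h
  rcases Nat.eq_zero_or_pos m with rfl | hm
  · rw [Nat.cast_zero, Real.zero_rpow (by norm_num), mul_zero]
    positivity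
  obtain ⟨c, hc⟩ := card_le_val G F (u ⟨0, hm⟩)
  set X := Nat.card {w : Fin N → Option Bool // fV G w = F} with hX
  have hX1 : (X : ℝ) ≤ 3 ^ N := by
    have : X ≤ 3 ^ N := by
      rw [hX, Nat.card_eq_fintype_card]
      refine (Fintype.card_subtype_le _).trans ?_
      simp
    exact_mod_cast this
  have h1 := match_bound (adjm G) (adjm_symm G) u v hu hv huv (fun k => by
      unfold adjm; rw [if_pos (hcr k)]; exact one_ne_zero) hm c
  have h2 : (2 : ℝ) ^ N * X ≤ (9 / (m : ℝ) + 4 * (9 / (m : ℝ)) ^ (1 / 8 : ℝ)) * 6 ^ N := by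
    refine le_trans ?_ h1
    exact_mod_cast hc
  have h3 : (X : ℝ) ≤ (9 / (m : ℝ) + 4 * (9 / (m : ℝ)) ^ (1 / 8 : ℝ)) * 3 ^ N := by
    have h4 : (6 : ℝ) ^ N = 2 ^ N * 3 ^ N := by rw [← mul_pow]; norm_num
    rw [h4] at h2
    have h5 : (0 : ℝ) < 2 ^ N := by positivity
    refine le_of_mul_le_mul_left ?_ h5
    linarith
  have hmr : (0 : ℝ) < m := by exact_mod_cast hm
  have h3N : (0 : ℝ) < 3 ^ N := by positivity
  set x : ℝ := (m : ℝ) ^ (1 / 8 : ℝ) with hx
  have hx0 : 0 < x := Real.rpow_pos_of_pos hmr _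
  by_cases hx6 : x ≤ 6
  · calc (X : ℝ) * x ≤ 3 ^ N * 6 := by gcongr
      _ = _ := by ring
  · push Not at hx6
    have hx8 : x ^ 8 = m := by
      rw [hx, ← Real.rpow_natCast, ← Real.rpow_mul hmr.le]
      norm_num
    have h5 : (9 / (m : ℝ)) ^ (1 / 8 : ℝ) * x ≤ 4 / 3 := by
      rw [hx, ← Real.mul_rpow (by positivity) hmr.le, div_mul_cancel₀ _ hmr.ne']
      calc (9 : ℝ) ^ (1 / 8 : ℝ) ≤ ((4 / 3 : ℝ) ^ (8 : ℕ)) ^ (1 / 8 : ℝ) :=
            Real.rpow_le_rpow (by norm_num) (by norm_num) (by norm_num)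
        _ = 4 / 3 := by
            rw [← Real.rpow_natCast, ← Real.rpow_mul (by norm_num)]
            norm_num
    have h6 : 9 / (m : ℝ) * x ≤ 1 / 2 := by
      rw [← hx8, div_mul_eq_mul_div, div_le_iff₀ (by positivity)]
      have h7 : (6 : ℝ) ^ 7 ≤ x ^ 7 := by gcongr
      have h8 : 9 ≤ 1 / 2 * x ^ 7 := by
        norm_num at h7
        linarith
      calc 9 * x ≤ 1 / 2 * x ^ 7 * x := by gcongr
        _ = _ := by ring
    calc (X : ℝ) * x ≤ (9 / (m : ℝ) + 4 * (9 / (m : ℝ)) ^ (1 / 8 : ℝ)) * 3 ^ N * x := by gcongr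
      _ = (9 / (m : ℝ) * x + 4 * ((9 / (m : ℝ)) ^ (1 / 8 : ℝ) * x)) * 3 ^ N := by ring
      _ ≤ (1 / 2 + 4 * (4 / 3)) * 3 ^ N := by gcongr
      _ ≤ 6 * 3 ^ N := by gcongr; norm_num

/-- **at most about one third** of the virtual diagrams with a given shadow have a given bracket -/
theorem bound_third (G : GaussWord N) (F : ℤ[T;T⁻¹]) (hex : ∃ i j, Crosses G i j) :
    (Nat.card {w : Fin N → Option Bool // fV G w = F} : ℝ) ≤
      (1 / 3 + 12 * (Nat.card {i : Fin N // ∃ j, Crosses G i j} : ℝ) ^ (-(1 / 8 : ℝ))) * 3 ^ N := by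
  classical
  obtain ⟨i0, j0, hij0⟩ := hex
  set X := Nat.card {w : Fin N → Option Bool // fV G w = F} with hX
  set n := Nat.card {i : Fin N // ∃ j, Crosses G i j} with hn
  have hn0 : 0 < n := by
    rw [hn]
    have : Nonempty {i : Fin N // ∃ j, Crosses G i j} := ⟨⟨i0, j0, hij0⟩⟩
    exact Nat.card_pos
  have hnr : (1 : ℝ) ≤ n := by exact_mod_cast hn0
  have hn1 : (0 : ℝ) < n := by linarith
  have h3N : (0 : ℝ) < 3 ^ N := by positivity
  obtain ⟨m, u, v, hmatch, hmax⟩ := exists_maximal G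
  by_cases hm : n ≤ 4 * m
  · -- many disjoint pairs
    have hm0 : 0 < m := by omega
    have hmr : (0 : ℝ) < m := by exact_mod_cast hm0
    have h2 := bound_match G F u v hmatch
    rw [← hX] at h2
    have h3 : (n : ℝ) ^ (1 / 8 : ℝ) ≤ 5 / 4 * (m : ℝ) ^ (1 / 8 : ℝ) := by
      have h5 : (n : ℝ) ≤ 4 * (m : ℝ) := by exact_mod_cast hm
      calc (n : ℝ) ^ (1 / 8 : ℝ) ≤ (4 * (m : ℝ)) ^ (1 / 8 : ℝ) :=
            Real.rpow_le_rpow (by positivity) h5 (by norm_num)
        _ = 4 ^ (1 / 8 : ℝ) * (m : ℝ) ^ (1 / 8 : ℝ) := Real.mul_rpow (by norm_num) (by positivity)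
        _ ≤ 5 / 4 * (m : ℝ) ^ (1 / 8 : ℝ) := by
            gcongr
            have h6 : (4 : ℝ) ≤ (5 / 4) ^ (8 : ℕ) := by norm_num
            calc (4 : ℝ) ^ (1 / 8 : ℝ) ≤ (((5 / 4 : ℝ)) ^ (8 : ℕ)) ^ (1 / 8 : ℝ) :=
                  Real.rpow_le_rpow (by norm_num) h6 (by norm_num)
              _ = 5 / 4 := by
                  rw [← Real.rpow_natCast, ← Real.rpow_mul (by norm_num)]
                  norm_num
    have h4 : (X : ℝ) * (n : ℝ) ^ (1 / 8 : ℝ) ≤ 12 * 3 ^ N := by
      calc (X : ℝ) * (n : ℝ) ^ (1 / 8 : ℝ) ≤ X * (5 / 4 * (m : ℝ) ^ (1 / 8 : ℝ)) := by gcongr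
        _ = 5 / 4 * (X * (m : ℝ) ^ (1 / 8 : ℝ)) := by ring
        _ ≤ 5 / 4 * (6 * 3 ^ N) := by gcongr
        _ ≤ 12 * 3 ^ N := by nlinarith
    have hp : 0 < (n : ℝ) ^ (1 / 8 : ℝ) := Real.rpow_pos_of_pos hn1 _
    have h5 : (X : ℝ) ≤ 12 * (n : ℝ) ^ (-(1 / 8 : ℝ)) * 3 ^ N := by
      rw [Real.rpow_neg hn1.le]
      rw [← div_eq_mul_inv, div_mul_eq_mul_div, le_div_iff₀ hp]
      exact h4
    have h6 : (1 / 3 + 12 * (n : ℝ) ^ (-(1 / 8 : ℝ))) * 3 ^ N =
        1 / 3 * 3 ^ N + 12 * (n : ℝ) ^ (-(1 / 8 : ℝ)) * 3 ^ N := by ring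
    rw [h6]
    have : (0 : ℝ) ≤ 1 / 3 * 3 ^ N := by positivity
    linarith
  · -- a large independent set
    let p : Fin N → Prop := fun i => (∃ j, Crosses G i j) ∧ ∀ k, u k ≠ i ∧ v k ≠ i
    have hpc : n ≤ Fintype.card {k // p k} + 2 * m := by
      have h1 : n = (univ.filter fun i : Fin N => ∃ j, Crosses G i j).card := by
        rw [hn, Nat.card_eq_fintype_card, Fintype.card_subtype]
      have h2 : (univ.filter fun i : Fin N => ∃ j, Crosses G i j) ⊆
          (univ.filter p) ∪ (univ.image u ∪ univ.image v) := by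
        intro i hi
        rw [mem_filter] at hi
        by_cases hp : ∀ k, u k ≠ i ∧ v k ≠ i
        · exact mem_union_left _ (mem_filter.2 ⟨mem_univ _, hi.2, hp⟩)
        · push Not at hp
          obtain ⟨k, hk⟩ := hp
          refine mem_union_right _ ?_
          by_cases h : u k = i
          · exact mem_union_left _ (mem_image.2 ⟨k, mem_univ _, h⟩)
          · exact mem_union_right _ (mem_image.2 ⟨k, mem_univ _, hk h⟩)
      have h3 := card_le_card h2
      have h4 := card_union_le (univ.filter p) (univ.image u ∪ univ.image v)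
      have h5 := card_union_le (univ.image u) (univ.image v)
      have h6 : (univ.image u).card ≤ m := card_image_le.trans (by simp)
      have h7 : (univ.image v).card ≤ m := card_image_le.trans (by simp)
      have h8 : Fintype.card {k // p k} = (univ.filter p).card := Fintype.card_subtype p
      rw [h8]
      omega
    set k := Fintype.card {k // p k} with hk
    have hk2 : n < 2 * k := by omega
    have hk0 : 0 < k := by omega
    obtain ⟨c, hc⟩ := card_le_val G F i0
    have h1 := third_bound (adjm G) (adjm_symm G) p (by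
      intro i hi j hj
      unfold adjm
      rw [if_neg (hmax i j hi.2 hj.2)]) (by
      intro i hi
      obtain ⟨j, hj⟩ := hi.1
      refine ⟨j, ?_, ?_⟩
      · intro hpj
        exact hmax i j hi.2 hpj.2 hj
      · unfold adjm
        rw [if_pos hj]
        exact one_ne_zero) hk0 c
    have h2 : (2 : ℝ) ^ N * X ≤ (1 / 3 + 8 / √(k : ℝ)) * 6 ^ N := by
      refine le_trans ?_ (by convert h1)
      exact_mod_cast hc
    have h2' : (X : ℝ) ≤ (1 / 3 + 8 / √(k : ℝ)) * 3 ^ N := by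
      have h4 : (6 : ℝ) ^ N = 2 ^ N * 3 ^ N := by rw [← mul_pow]; norm_num
      rw [h4] at h2
      have h5 : (0 : ℝ) < 2 ^ N := by positivity
      refine le_of_mul_le_mul_left ?_ h5
      linarith
    have hkr : (0 : ℝ) < k := by exact_mod_cast hk0
    have h3 : 8 / √(k : ℝ) ≤ 12 * (n : ℝ) ^ (-(1 / 8 : ℝ)) := by
      have h4 : (n : ℝ) ≤ 2 * k := by exact_mod_cast hk2.le
      have h5 : √(n : ℝ) ≤ 3 / 2 * √(k : ℝ) := by
        calc √(n : ℝ) ≤ √(2 * k) := Real.sqrt_le_sqrt h4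
          _ ≤ √((3 / 2) ^ 2 * k) := Real.sqrt_le_sqrt (by nlinarith)
          _ = 3 / 2 * √(k : ℝ) := by
              rw [Real.sqrt_mul (by norm_num), Real.sqrt_sq (by norm_num)]
      have hsk : 0 < √(k : ℝ) := Real.sqrt_pos.2 hkr
      have hsn : 0 < √(n : ℝ) := Real.sqrt_pos.2 hn1
      have h6 : 8 / √(k : ℝ) ≤ 12 / √(n : ℝ) := by
        rw [div_le_div_iff₀ hsk hsn]
        linarith
      have h7 : (√(n : ℝ))⁻¹ ≤ (n : ℝ) ^ (-(1 / 8 : ℝ)) := by
        rw [Real.sqrt_eq_rpow, ← Real.rpow_neg hn1.le]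
        exact Real.rpow_le_rpow_of_exponent_le hnr (by norm_num)
      calc 8 / √(k : ℝ) ≤ 12 * (√(n : ℝ))⁻¹ := by rw [← div_eq_mul_inv]; exact h6
        _ ≤ _ := by linarith
    calc (X : ℝ) ≤ (1 / 3 + 8 / √(k : ℝ)) * 3 ^ N := h2'
      _ ≤ _ := by gcongr

end Pool.Agent.Q179.RV
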