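import Pool.Agent.Q179.RV.Defs
import Pool.Agent.Q179.HS.Quad

/-!
# The second moment of the normalised bracket of a virtual knot diagram
-/

set_option autoImplicit false

namespace Pool.Agent.Q179.RV

open Finset Function LaurentPolynomial Pool.Agent.H832R2.JR Pool.Agent.Q179.HS

variable {N : ℕ}

/-- `0, 1, 2` -/
def gg (k : Fin 3) : ℤ := if k = 0 then 0 else if k = 1 then 1 else 2

/-- the pattern of the states at a virtual (`true`) or classical (`false`) crossing -/
def cc (v : Prop) [Decidable v] (k : Fin 3) : ℤ :=
  if v then (if k = 0 then 1 else 0) else (if k = 0 then 0 else 1)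

/-- the weights for the mixed second moment -/
def aV (i j : Fin N) (V : Finset (Fin N)) (c : Fin N) (k : Fin 3) : ℤ :=
  if c = i ∨ c = j then gg k else cc (c ∈ V) k

theorem Z_neg (G : GaussWord N) (a : Fin N → Fin 3 → ℤ) (c : Fin N) (v : Fin 3 → ℤ) :
    Z G (update a c (fun k => - v k)) = - Z G (update a c v) := by
  rw [Z_upd, Z_upd, ← sum_neg_distrib]
  refine sum_congr rfl fun t _ => ?_
  ring

open Classical in
theorem Z_virt (G : GaussWord N) (i j : Fin N) (hij : i ≠ j) : ∀ V : Finset (Fin N), i ∉ V → j ∉ V →
    Z G (aV i j V) = (-1) ^ V.card * ((-1) ^ N * (if Crosses G i j then 6 else 0)) := by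
  intro V
  induction V using Finset.induction_on with
  | empty =>
    intro _ _
    rw [card_empty, pow_zero, one_mul, ← Z_pair G i j hij]
    congr 1
  | insert c V hc ih =>
    intro hi hj
    rw [mem_insert, not_or] at hi hj
    have h1 : aV i j (insert c V) = update (aV i j V) c (fun k => if k = 0 then 1 else 0) := by
      funext d k
      by_cases hd : d = c
      · subst hd
        rw [update_self]
        unfold aV cc
        rw [if_neg (by rintro (h | h); exacts [hi.1 h.symm, hj.1 h.symm]), if_pos (mem_insert_self _ _)]
      · rw [update_of_ne hd]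
        unfold aV cc
        simp [hd]
    have h2 : aV i j V = update (aV i j V) c (fun k => if k = 0 then 0 else 1) := by
      funext d k
      by_cases hd : d = c
      · subst hd
        rw [update_self]
        unfold aV cc
        rw [if_neg (by rintro (h | h); exacts [hi.1 h.symm, hj.1 h.symm]), if_neg hc]
      · rw [update_of_ne hd]
    have h3 : Z G (aV i j V) = - Z G (aV i j (insert c V)) := by
      rw [h1, ← Z_neg, h2, Z_shift G _ c _ 1]
      congr 1
      funext d k
      by_cases hd : d = c
      · subst hd
        rw [update_self, update_self]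
        by_cases hk : k = 0 <;> simp [hk]
      · rw [update_of_ne hd, update_of_ne hd, update_of_ne hd]
    have h4 := ih hi.2 hj.2
    rw [card_insert_of_notMem hc, pow_succ]
    linarith

/-- the quadratic form -/
noncomputable def QV (G : GaussWord N) (w : Fin N → Option Bool) : ℤ :=
  ∑ i, ∑ j, adjm G i j * (sv (w i) * sv (w j))

/-- the virtual crossings -/
def vset (w : Fin N → Option Bool) : Finset (Fin N) := univ.filter fun c => w c = none

theorem phi_eq (o : Option Bool) (k : Fin 3) :
    phi o k = (((if o = none then 1 else -1) * cc (o = none) k : ℤ) : ℤ[T;T⁻¹]) * T (-2 * (sv o * gg k)) := by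
  unfold phi cc gg
  rcases o with _ | b
  · fin_cases k <;> simp [loc, sv]
  · have h1 : ∀ x y : ℤ, (T x * T y : ℤ[T;T⁻¹]) = T (x + y) := fun x y => (T_add x y).symm
    fin_cases k
    · simp [loc]
    · simp only [loc, sv]
      simp only [reduceCtorEq, if_false, Fin.isValue, Fin.mk_one, one_ne_zero, if_true, mul_one,
        Int.cast_neg, Int.cast_one]
      rw [mul_assoc, h1]
      congr 2
      ring
    · simp only [loc, sv]
      simp only [reduceCtorEq, if_false, Fin.isValue, Fin.reduceFinMk]
      simp only [Fin.isValue, Fin.reduceEq, if_false]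
      rw [mul_assoc, h1]
      simp only [mul_one, Int.cast_neg, Int.cast_one]
      congr 2
      ring

theorem rho_term (n k : ℤ) (l : ℕ) : rho ((n : ℤ[T;T⁻¹]) * T k * dl ^ l) 0 2 =
    n * ((-2) ^ l * (k ^ 2 + 4 * (l : ℤ))) := by
  have h1 : rho (n : ℤ[T;T⁻¹]) = (n : Matrix (Fin 3) (Fin 3) ℤ) := map_intCast rho n
  unfold dl
  rw [map_mul, map_mul, h1, rho_T, rho_d, mul_assoc, ← zsmul_eq_mul, Matrix.smul_apply, smul_eq_mul]
  congr 1
  unfold mmat
  simp only [Matrix.mul_apply, Fin.sum_univ_three]
  simp
  ring

theorem rho_fV (G : GaussWord N) (w : Fin N → Option Bool) :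
    rho (fV G w) 0 2 = ∑ t : Fin N → Fin 3, (∏ c, ((if w c = none then 1 else -1) * cc (w c = none) (t c))) *
      ((-2) ^ (L G t - 1) * ((-2 * ∑ c, sv (w c) * gg (t c)) ^ 2 + 4 * ((L G t - 1 : ℕ) : ℤ))) := by
  rw [fV_eq, map_sum, Matrix.sum_apply]
  refine sum_congr rfl fun t _ => ?_
  rw [← rho_term]
  congr 2
  rw [prod_congr rfl (fun c _ => phi_eq (w c) (t c)), prod_mul_distrib, ← T_sum, ← mul_sum]
  push_cast
  rfl

open Classical in
/-- **the second moment of the normalised bracket of a virtual knot diagram**: up to a constant which only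
depends on the shadow and the set of the virtual crossings, it is a multiple of the sum of `w_i w_j` over all
pairs of crossing chords -/
theorem second_momentV (G : GaussWord N) (i₀ : Fin N) :
    ∃ K : Finset (Fin N) → ℤ, ∀ w : Fin N → Option Bool, rho (fV G w) 0 2 = K (vset w) - 12 * QV G w := by
  have hL : ∀ t, 1 ≤ L G t := fun t => one_le_L G t i₀
  set P : Finset (Fin N) → (Fin N → Fin 3) → ℤ := fun V t =>
    ∏ c, ((if c ∈ V then 1 else -1) * cc (c ∈ V) (t c)) with hP
  set K1 : Finset (Fin N) → ℤ := fun V => ∑ t, P V t * ((-2) ^ L G t * (4 * ((L G t - 1 : ℕ) : ℤ))) with hK1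
  set W : Finset (Fin N) → Fin N → Fin N → ℤ := fun V i j =>
    ∑ t, P V t * ((-2) ^ L G t * (gg (t i) * gg (t j))) with hW
  have hPP : ∀ V t, P V t = (-1) ^ (N - V.card) * ∏ c, cc (c ∈ V) (t c) := by
    intro V t
    simp only [hP]
    rw [prod_mul_distrib]
    congr 1
    rw [prod_ite, prod_const_one, one_mul, prod_const]
    congr 1
    have h1 : (univ.filter fun c => c ∉ V) = Vᶜ := by ext c; simp
    rw [h1, card_compl, Fintype.card_fin]
  have hW2 : ∀ (V : Finset (Fin N)) (i j : Fin N), i ≠ j → i ∉ V → j ∉ V → W V i j = 6 * adjm G i j := by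
    intro V i j hij hi hj
    have h1 := Z_virt G i j hij V hi hj
    have h2 : W V i j = (-1) ^ (N - V.card) * Z G (aV i j V) := by
      simp only [hW]
      unfold Z
      rw [mul_sum]
      refine sum_congr rfl fun t _ => ?_
      have h3 : ∏ c, aV i j V c (t c) = (∏ c, cc (c ∈ V) (t c)) * (gg (t i) * gg (t j)) := by
        have h4 : ∀ c, aV i j V c (t c) = cc (c ∈ V) (t c) * (if c = i then gg (t i) else 1) *
            (if c = j then gg (t j) else 1) := by
          intro c
          unfold aV
          by_cases hci : c = i
          · subst hci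
            rw [if_pos (Or.inl rfl), if_pos rfl, if_neg hij]
            unfold cc gg
            rw [if_neg hi]
            split_ifs <;> simp
          · by_cases hcj : c = j
            · subst hcj
              rw [if_pos (Or.inr rfl), if_pos rfl, if_neg hci]
              unfold cc gg
              rw [if_neg hj]
              split_ifs <;> simp
            · rw [if_neg (by rintro (h | h); exacts [hci h, hcj h]), if_neg hci, if_neg hcj]
              ring
        rw [prod_congr rfl (fun c _ => h4 c), prod_mul_distrib, prod_mul_distrib, prod_ite_eq',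
          prod_ite_eq', if_pos (mem_univ _), if_pos (mem_univ _)]
        ring
      rw [h3, hPP]
      ring
    rw [h2, h1]
    have h5 : (-1 : ℤ) ^ (N - V.card) * ((-1) ^ V.card * (-1) ^ N) = 1 := by
      rw [← pow_add, ← pow_add]
      have : V.card ≤ N := by
        have := card_le_univ V
        simpa using this
      rw [show N - V.card + (V.card + N) = 2 * N by omega, pow_mul]
      simp
    unfold adjm
    split_ifs
    · linear_combination 6 * h5
    · ring
  have key : ∀ w : Fin N → Option Bool, -2 * rho (fV G w) 0 2 =
      (K1 (vset w) + 4 * ∑ i, (if i ∈ vset w then 0 else W (vset w) i i)) + 24 * QV G w := by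
    intro w
    have hmem : ∀ c, c ∈ vset w ↔ w c = none := fun c => by simp [vset]
    have hPw : ∀ t, ∏ c, ((if w c = none then 1 else -1) * cc (w c = none) (t c)) = P (vset w) t := by
      intro t
      simp only [hP]
      refine prod_congr rfl fun c _ => ?_
      unfold cc
      by_cases h : w c = none
      · simp only [if_pos h, if_pos ((hmem c).2 h)]
      · simp only [if_neg h, if_neg (fun h' => h ((hmem c).1 h'))]
    have e1 : -2 * rho (fV G w) 0 2 = K1 (vset w) + 4 * ∑ i, ∑ j, sv (w i) * sv (w j) * W (vset w) i j := by
      have e2 : ∑ i, ∑ j, sv (w i) * sv (w j) * W (vset w) i j = ∑ t : Fin N → Fin 3,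
          P (vset w) t * ((-2) ^ L G t * (∑ c, sv (w c) * gg (t c)) ^ 2) := by
        simp only [hW, mul_sum]
        have e3 : ∀ i, ∑ j, ∑ t : Fin N → Fin 3, sv (w i) * sv (w j) *
            (P (vset w) t * ((-2) ^ L G t * (gg (t i) * gg (t j)))) = ∑ t : Fin N → Fin 3, ∑ j,
            sv (w i) * sv (w j) * (P (vset w) t * ((-2) ^ L G t * (gg (t i) * gg (t j)))) :=
          fun i => sum_comm
        rw [sum_congr rfl (fun i _ => e3 i), sum_comm]
        refine sum_congr rfl fun t _ => ?_
        rw [sq, sum_mul_sum, mul_sum, mul_sum]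
        refine sum_congr rfl fun i _ => ?_
        rw [mul_sum, mul_sum]
        refine sum_congr rfl fun j _ => ?_
        ring
      rw [e2, rho_fV]
      simp only [hK1]
      rw [mul_sum, mul_sum, ← sum_add_distrib]
      refine sum_congr rfl fun t _ => ?_
      rw [hPw]
      obtain ⟨l, hl⟩ : ∃ l, L G t = l + 1 := ⟨L G t - 1, by have := hL t; omega⟩
      rw [hl, Nat.add_sub_cancel]
      ring
    have e4 : ∑ i, ∑ j, sv (w i) * sv (w j) * W (vset w) i j =
        ∑ i, (if i ∈ vset w then 0 else W (vset w) i i) + 6 * QV G w := by
      unfold QV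
      rw [mul_sum, ← sum_add_distrib]
      refine sum_congr rfl fun i _ => ?_
      rw [mul_sum]
      have e5 : (if i ∈ vset w then 0 else W (vset w) i i) =
          ∑ j, if j = i then (if i ∈ vset w then 0 else W (vset w) i i) else 0 := by simp
      rw [e5, ← sum_add_distrib]
      refine sum_congr rfl fun j _ => ?_
      have sv0 : ∀ c, c ∈ vset w → sv (w c) = 0 := by
        intro c hc
        rw [(hmem c).1 hc]
        rfl
      by_cases hij : j = i
      · subst hij
        have e7 : adjm G j j = 0 := by
          unfold adjm; rw [if_neg (not_crosses_self G j)]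
        rw [if_pos rfl, e7]
        by_cases hj : j ∈ vset w
        · rw [sv0 j hj, if_pos hj]; ring
        · have e6 : sv (w j) * sv (w j) = 1 := by
            have : w j ≠ none := fun h => hj ((hmem j).2 h)
            obtain ⟨b, hb⟩ := Option.ne_none_iff_exists'.1 this
            rw [hb]
            exact sgn_sq b
          rw [if_neg hj, e6]; ring
      · rw [if_neg hij]
        by_cases hi : i ∈ vset w
        · rw [sv0 i hi]; ring
        · by_cases hj : j ∈ vset w
          · rw [sv0 j hj]; ring
          · rw [hW2 _ i j (Ne.symm hij) hi hj]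
            ring
    rw [e1, e4]
    ring
  refine ⟨fun V => rho (fV G (fun c => if c ∈ V then none else some true)) 0 2 +
    12 * QV G (fun c => if c ∈ V then none else some true), fun w => ?_⟩
  have hv : vset (fun c : Fin N => if c ∈ vset w then (none : Option Bool) else some true) = vset w := by
    ext c
    simp [vset]
  have k1 := key w
  have k2 := key (fun c => if c ∈ vset w then none else some true)
  rw [hv] at k2
  linarith

end Pool.Agent.Q179.RV
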