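import Pool.Agent.Q179.RV.Small
import Pool.Agent.H832R2.JR.Matching

/-!
# Random virtual crossings and the Littlewood-Offord inequality
-/

set_option autoImplicit false

namespace Pool.Agent.Q179.RV

open Finset Function Pool.Agent.H832R2.JR Pool.Agent.Q179.HS

variable {ι : Type} [Fintype ι] [DecidableEq ι]

theorem sum_update' {α R : Type} [Fintype α] [DecidableEq α] [CommRing R] (i : ι) (H : (ι → α) → R) :
    ∑ w, ∑ a, H (update w i a) = (Fintype.card α : R) * ∑ w, H w := by
  rw [← Fintype.sum_prod_type' (f := fun w a => H (update w i a))]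
  have e : ∑ x : (ι → α) × α, H (update x.1 i x.2) = ∑ x : (ι → α) × α, H x.1 := by
    refine Fintype.sum_equiv (Function.Involutive.toPerm
      (fun x : (ι → α) × α => (update x.1 i x.2, x.1 i)) ?_) _ _ ?_
    · rintro ⟨w, a⟩
      simp
    · rintro ⟨w, a⟩
      rfl
  rw [e, Fintype.sum_prod_type]
  simp [mul_sum]

/-- centred indicator of `0` -/
def zz (t : Fin 3) : ℤ := if t = 0 then 2 else -1

theorem card_pow3 : Fintype.card (ι → Fin 3) = 3 ^ Fintype.card ι := by simp

/-- the variance -/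
theorem variance (D : Finset ι) :
    ∑ t : ι → Fin 3, (∑ i ∈ D, zz (t i)) ^ 2 = 2 * (D.card : ℤ) * 3 ^ Fintype.card ι := by
  have h1 : ∀ t : ι → Fin 3, (∑ i ∈ D, zz (t i)) ^ 2 = ∑ i ∈ D, ∑ j ∈ D, zz (t i) * zz (t j) := by
    intro t
    rw [sq, sum_mul_sum]
  simp only [h1]
  rw [sum_comm]
  have h2 : ∀ i ∈ D, ∑ t : ι → Fin 3, ∑ j ∈ D, zz (t i) * zz (t j) = 2 * 3 ^ Fintype.card ι := by
    intro i hi
    rw [sum_comm, sum_eq_single_of_mem i hi]
    · have h3 := sum_update' (R := ℤ) i (fun t : ι → Fin 3 => zz (t i) * zz (t i))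
      simp only [update_self] at h3
      have h4 : ∑ a : Fin 3, zz a * zz a = 6 := by decide
      rw [h4, sum_const, card_univ, card_pow3] at h3
      simp only [Fintype.card_fin, nsmul_eq_mul] at h3
      push_cast at h3
      linarith
    · intro j _ hji
      have h3 := sum_update' (R := ℤ) i (fun t : ι → Fin 3 => zz (t i) * zz (t j))
      simp only [update_self, update_of_ne hji] at h3
      have h4 : ∀ t : ι → Fin 3, ∑ a : Fin 3, zz a * zz (t j) = 0 := by
        intro t
        rw [← sum_mul]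
        have : ∑ a : Fin 3, zz a = 0 := by decide
        rw [this, zero_mul]
      rw [sum_congr rfl (fun t _ => h4 t), sum_const_zero] at h3
      have h5 : ((Fintype.card (Fin 3) : ℕ) : ℤ) = 3 := by simp
      rw [h5] at h3
      linarith
  rw [sum_congr rfl h2, sum_const, nsmul_eq_mul]
  ring

/-- Chebyshev -/
theorem cheb (D : Finset ι) (a : ℕ) :
    ((univ.filter fun t : ι → Fin 3 => (a : ℤ) ≤ ∑ i ∈ D, zz (t i)).card : ℝ) * (a : ℝ) ^ 2 ≤
      2 * (D.card : ℝ) * 3 ^ Fintype.card ι := by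
  have h1 : ((univ.filter fun t : ι → Fin 3 => (a : ℤ) ≤ ∑ i ∈ D, zz (t i)).card : ℤ) * (a : ℤ) ^ 2 ≤
      2 * (D.card : ℤ) * 3 ^ Fintype.card ι := by
    rw [← variance D, ← nsmul_eq_mul, ← sum_const]
    refine (sum_le_sum (g := fun t : ι → Fin 3 => (∑ i ∈ D, zz (t i)) ^ 2) ?_).trans
      (sum_le_sum_of_subset_of_nonneg (filter_subset _ _) (fun t _ _ => sq_nonneg _))
    intro t ht
    rw [mem_filter] at ht
    have := ht.2
    gcongr
  exact_mod_cast h1

theorem sum_zz (D : Finset ι) (t : ι → Fin 3) :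
    ∑ i ∈ D, zz (t i) = 2 * (D.card : ℤ) - 3 * ((D.filter fun i => t i ≠ 0).card : ℤ) := by
  have h1 : ∀ i ∈ D, zz (t i) = 2 - (if t i ≠ 0 then 3 else 0) := by
    intro i _
    unfold zz
    by_cases h : t i = 0 <;> simp [h]
  rw [sum_congr rfl h1, sum_sub_distrib, sum_const, ← sum_filter, sum_const]
  simp only [nsmul_eq_mul]
  ring

/-- the value of a random crossing -/
def val (x : Fin 3 × Bool) : ℤ := if x.1 = 0 then 0 else sgn x.2

theorem g_bound4 (k r : ℕ) (hr : r ≤ k) (P : ℝ) (hP : P ≤ 1) (hP2 : P * √(r : ℝ) ≤ 4) (hk : 0 < k) :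
    P ≤ 1 - r / k + 8 / √(k : ℝ) := by
  have hk' : (0 : ℝ) < k := by exact_mod_cast hk
  have hr' : (r : ℝ) ≤ k := by exact_mod_cast hr
  set b := √(k : ℝ) with hb
  have hb0 : 0 < b := Real.sqrt_pos.2 hk'
  have hb2 : b ^ 2 = k := Real.sq_sqrt hk'.le
  by_cases hb8 : b ≤ 8
  · have h1 : 1 ≤ 8 / b := by rw [le_div_iff₀ hb0]; linarith
    have h2 : (r : ℝ) / k ≤ 1 := by rw [div_le_one hk']; exact hr'
    linarith
  · push Not at hb8
    by_cases hr16 : r < 16
    · have h1 : (r : ℝ) / k ≤ 8 / b := by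
        rw [div_le_div_iff₀ hk' hb0, ← hb2]
        have : (r : ℝ) ≤ 16 := by exact_mod_cast hr16.le
        nlinarith
      linarith
    · push Not at hr16
      set a := √(r : ℝ) with ha
      have ha4 : 4 ≤ a := by
        rw [ha, show (4 : ℝ) = √16 by rw [show (16 : ℝ) = 4 ^ 2 by norm_num, Real.sqrt_sq (by norm_num)]]
        exact Real.sqrt_le_sqrt (by exact_mod_cast hr16)
      have ha2 : a ^ 2 = r := Real.sq_sqrt (by positivity)
      have hab : a ≤ b := Real.sqrt_le_sqrt hr'
      have ha0 : 0 < a := by linarith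
      have h1 : P ≤ 4 / a := by
        rw [le_div_iff₀ ha0]
        exact hP2
      refine h1.trans ?_
      rw [← ha2, ← hb2]
      have h2 : 1 - a ^ 2 / b ^ 2 + 8 / b - 4 / a = (a * b ^ 2 - a ^ 3 + 8 * a * b - 4 * b ^ 2) / (a * b ^ 2) := by
        field_simp
      have h3 : 0 ≤ a * b ^ 2 - a ^ 3 + 8 * a * b - 4 * b ^ 2 := by
        obtain ⟨c, hbc⟩ : ∃ c, b = a + c := ⟨b - a, by ring⟩
        have hc : 0 ≤ c := by linarith
        rw [hbc]
        have h4 : a * (a + c) ^ 2 - a ^ 3 + 8 * a * (a + c) - 4 * (a + c) ^ 2 =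
            2 * a ^ 2 * c + 4 * a ^ 2 + (a - 4) * c ^ 2 := by ring
        rw [h4]
        have : 0 ≤ a - 4 := by linarith
        positivity
      have h5 : 0 ≤ 1 - a ^ 2 / b ^ 2 + 8 / b - 4 / a := by
        rw [h2]
        positivity
      linarith

/-- a linear form in random variables which are `0`, `1` and `-1` with the same probability; the value may
depend on the set of the variables which are `0` -/
theorem lin_virtual (a : ι → ℤ) (c : (ι → Fin 3) → ℤ) (hk : 0 < Fintype.card ι) :
    ((univ.filter fun x : ι → Fin 3 × Bool => ∑ i, val (x i) * a i = c (fun i => (x i).1)).card : ℝ) ≤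
      (1 - ((univ.filter fun i => a i ≠ 0).card : ℝ) / (Fintype.card ι : ℝ) +
        8 / √(Fintype.card ι : ℝ)) * 6 ^ Fintype.card ι := by
  set k := Fintype.card ι with hkdef
  have hck : Fintype.card ι = k := rfl
  set D := univ.filter fun i => a i ≠ 0 with hD
  set r := D.card with hr
  have hrk : r ≤ k := card_le_univ D
  let nT : (ι → Fin 3) → ℕ := fun t => (univ.filter fun s : ι → Bool =>
    ∑ i, sgn (s i) * (if t i = 0 then 0 else a i) = c t).card
  have hcount : (univ.filter fun x : ι → Fin 3 × Bool =>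
      ∑ i, val (x i) * a i = c (fun i => (x i).1)).card = ∑ t : ι → Fin 3, nT t := by
    have h1 : (univ.filter fun x : ι → Fin 3 × Bool =>
        ∑ i, val (x i) * a i = c (fun i => (x i).1)).card =
        (univ.filter fun p : (ι → Fin 3) × (ι → Bool) =>
          ∑ i, sgn (p.2 i) * (if p.1 i = 0 then 0 else a i) = c p.1).card := by
      refine card_equiv (Equiv.arrowProdEquivProdArrow ι (fun _ => Fin 3) (fun _ => Bool)) ?_
      intro x
      simp only [mem_filter, mem_univ, true_and, Equiv.arrowProdEquivProdArrow, Equiv.coe_fn_mk]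
      have h2 : ∑ i, val (x i) * a i = ∑ i, sgn (x i).2 * (if (x i).1 = 0 then 0 else a i) := by
        refine sum_congr rfl fun i _ => ?_
        unfold val
        split_ifs <;> ring
      rw [h2]
    rw [h1, card_filter, Fintype.sum_prod_type]
    refine sum_congr rfl fun t _ => ?_
    simp only [nT, card_filter]
  have hn1 : ∀ t, (nT t : ℝ) ≤ 2 ^ k := by
    intro t
    have : nT t ≤ 2 ^ k := by
      refine (card_le_univ _).trans ?_
      rw [Fintype.card_fun, Fintype.card_bool]
    exact_mod_cast this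
  have hn2 : ∀ t, (nT t : ℝ) * √((D.filter fun i => t i ≠ 0).card : ℝ) ≤ 2 ^ k := by
    intro t
    have h1 := LO (fun i => if t i = 0 then 0 else a i) (c t)
    have h2 : (univ.filter fun i => (if t i = 0 then 0 else a i) ≠ 0) = D.filter fun i => t i ≠ 0 := by
      ext i
      simp only [hD, mem_filter, mem_univ, true_and]
      by_cases h : t i = 0 <;> simp [h]
    rw [h2] at h1
    exact h1
  have h2k : (0 : ℝ) < 2 ^ k := by positivity
  have h3k : (0 : ℝ) < 3 ^ k := by positivity
  have h6k : (6 : ℝ) ^ k = 2 ^ k * 3 ^ k := by rw [← mul_pow]; norm_num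
  set P : ℝ := (∑ t : ι → Fin 3, (nT t : ℝ)) / 6 ^ k with hPdef
  have hP1 : P ≤ 1 := by
    rw [hPdef, div_le_one (by positivity), h6k]
    calc ∑ t : ι → Fin 3, (nT t : ℝ) ≤ ∑ t : ι → Fin 3, (2 : ℝ) ^ k := sum_le_sum fun t _ => hn1 t
      _ = 2 ^ k * 3 ^ k := by
          rw [sum_const, card_univ, card_pow3, hck, nsmul_eq_mul]
          push_cast
          ring
  have hP2 : P * √(r : ℝ) ≤ 4 := by
    rcases Nat.eq_zero_or_pos r with h0 | hr0
    · rw [h0]; simp
    · have hrr : (1 : ℝ) ≤ r := by exact_mod_cast hr0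
      have hrp : (0 : ℝ) < r := by linarith
      set s := √(r : ℝ) with hs
      have hs2 : s ^ 2 = r := Real.sq_sqrt hrp.le
      have hs0 : 0 < s := Real.sqrt_pos.2 hrp
      have hs1 : 1 ≤ s := by rw [hs, Real.one_le_sqrt]; exact hrr
      set B := univ.filter fun t : ι → Fin 3 => (r : ℤ) ≤ ∑ i ∈ D, zz (t i) with hB
      have hch := cheb D r
      rw [← hr, hck] at hch
      have hBcard : (B.card : ℝ) * r ≤ 2 * 3 ^ k := by
        have : (B.card : ℝ) * r * r ≤ 2 * 3 ^ k * r := by nlinarith [hch]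
        exact le_of_mul_le_mul_right this hrp
      have hgood : ∀ t, t ∉ B → (nT t : ℝ) * s ≤ 2 * 2 ^ k := by
        intro t ht
        rw [hB, mem_filter, not_and] at ht
        have h1 := ht (mem_univ t)
        rw [sum_zz, not_le] at h1
        have h2 : (r : ℝ) ≤ 3 * ((D.filter fun i => t i ≠ 0).card : ℝ) := by
          have : (r : ℤ) ≤ 3 * ((D.filter fun i => t i ≠ 0).card : ℤ) := by
            have h3 : (D.card : ℤ) = r := rfl
            rw [h3] at h1
            linarith
          exact_mod_cast this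
        have h4 : s ≤ 2 * √((D.filter fun i => t i ≠ 0).card : ℝ) := by
          calc s ≤ √(2 ^ 2 * ((D.filter fun i => t i ≠ 0).card : ℝ)) := by
                refine Real.sqrt_le_sqrt ?_
                nlinarith
            _ = 2 * √((D.filter fun i => t i ≠ 0).card : ℝ) := by
                rw [Real.sqrt_mul (by norm_num), Real.sqrt_sq (by norm_num)]
        calc (nT t : ℝ) * s ≤ nT t * (2 * √((D.filter fun i => t i ≠ 0).card : ℝ)) := by gcongr
          _ = 2 * (nT t * √((D.filter fun i => t i ≠ 0).card : ℝ)) := by ring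
          _ ≤ 2 * 2 ^ k := by gcongr; exact hn2 t
      rw [hPdef, div_mul_eq_mul_div, div_le_iff₀ (by positivity), sum_mul]
      rw [← sum_filter_add_sum_filter_not univ (fun t => t ∈ B)]
      have hb1 : ∑ t ∈ univ.filter (fun t => t ∈ B), (nT t : ℝ) * s ≤ 2 * (2 ^ k * 3 ^ k) := by
        have e1 : univ.filter (fun t => t ∈ B) = B := by ext; simp
        rw [e1]
        calc ∑ t ∈ B, (nT t : ℝ) * s ≤ ∑ t ∈ B, (2 : ℝ) ^ k * s :=
              sum_le_sum fun t _ => by gcongr; exact hn1 t
          _ = 2 ^ k * ((B.card : ℝ) * s) := by rw [sum_const, nsmul_eq_mul]; ring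
          _ ≤ 2 ^ k * ((B.card : ℝ) * r) := by
              gcongr
              rw [← hs2]
              nlinarith
          _ ≤ 2 ^ k * (2 * 3 ^ k) := by gcongr
          _ = _ := by ring
      have hb2 : ∑ t ∈ univ.filter (fun t => ¬ t ∈ B), (nT t : ℝ) * s ≤ 2 * (2 ^ k * 3 ^ k) := by
        calc ∑ t ∈ univ.filter (fun t => ¬ t ∈ B), (nT t : ℝ) * s ≤
              ∑ t ∈ univ.filter (fun t => ¬ t ∈ B), (2 * 2 ^ k : ℝ) :=
              sum_le_sum fun t ht => hgood t (mem_filter.1 ht).2
          _ ≤ ∑ t : ι → Fin 3, (2 * 2 ^ k : ℝ) :=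
              sum_le_sum_of_subset_of_nonneg (filter_subset _ _) (fun _ _ _ => by positivity)
          _ = 2 * (2 ^ k * 3 ^ k) := by
              rw [sum_const, card_univ, card_pow3, hck, nsmul_eq_mul]
              push_cast
              ring
      rw [h6k]
      linarith
  have hfin := g_bound4 k r hrk P hP1 hP2 hk
  rw [hcount]
  push_cast
  rwa [hPdef, div_le_iff₀ (by positivity)] at hfin

end Pool.Agent.Q179.RV
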