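import Pool.Agent.Q179.RV.Moment

/-!
# At most `7/9` of the virtual diagrams with a given shadow have a given bracket
-/

set_option autoImplicit false

namespace Pool.Agent.Q179.RV

open Finset Function LaurentPolynomial Pool.Agent.H832R2.JR Pool.Agent.Q179.HS

variable {N : ℕ}

theorem sum_update {α : Type} [Fintype α] [DecidableEq α] (i : Fin N) (H : (Fin N → α) → ℕ) :
    ∑ w, ∑ a, H (update w i a) = Fintype.card α * ∑ w, H w := by
  rw [← Fintype.sum_prod_type' (f := fun w a => H (update w i a))]
  have e : ∑ x : (Fin N → α) × α, H (update x.1 i x.2) = ∑ x : (Fin N → α) × α, H x.1 := by
    refine Fintype.sum_equiv (Function.Involutive.toPerm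
      (fun x : (Fin N → α) × α => (update x.1 i x.2, x.1 i)) ?_) _ _ ?_
    · rintro ⟨w, a⟩
      simp
    · rintro ⟨w, a⟩
      rfl
  rw [e, Fintype.sum_prod_type]
  simp [mul_sum]

/-- a quadratic form in two of the variables -/
theorem quad_two (A : Fin N → Fin N → ℤ) (hA : ∀ i j, A i j = A j i) (i j : Fin N)
    (hi : A i i = 0) (hj : A j j = 0) (y : Fin N → ℤ) (s t : ℤ) :
    ∑ k, ∑ l, A k l * ((y k + (if k = i then s else 0) + (if k = j then t else 0)) *
      (y l + (if l = i then s else 0) + (if l = j then t else 0))) =
    ∑ k, ∑ l, A k l * (y k * y l) + 2 * s * (∑ l, A i l * y l) + 2 * t * (∑ l, A j l * y l) +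
      2 * s * t * A i j := by
  have h1 : ∀ k l, A k l * ((y k + (if k = i then s else 0) + (if k = j then t else 0)) *
      (y l + (if l = i then s else 0) + (if l = j then t else 0))) = A k l * (y k * y l) +
      (if k = i then s * (A k l * y l) else 0) + (if l = i then s * (A l k * y k) else 0) +
      (if k = j then t * (A k l * y l) else 0) + (if l = j then t * (A l k * y k) else 0) +
      (if k = i then (if l = j then s * t * A k l else 0) else 0) +
      (if k = j then (if l = i then s * t * A k l else 0) else 0) +
      (if k = i then (if l = i then s * s * A k l else 0) else 0) +
      (if k = j then (if l = j then t * t * A k l else 0) else 0) := by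
    intro k l
    rw [hA l k]
    split_ifs <;> ring
  simp only [h1, sum_add_distrib]
  have h2 : ∀ (k0 : Fin N) (f : Fin N → Fin N → ℤ), ∑ k, ∑ l, (if k = k0 then f k l else 0) =
      ∑ l, f k0 l := by
    intro k0 f
    rw [sum_comm]
    refine sum_congr rfl fun l _ => ?_
    rw [sum_ite_eq' univ k0 (fun k => f k l), if_pos (mem_univ _)]
  have h3 : ∀ (l0 : Fin N) (f : Fin N → Fin N → ℤ), ∑ k, ∑ l, (if l = l0 then f l k else 0) =
      ∑ k, f l0 k := by
    intro l0 f
    refine sum_congr rfl fun k _ => ?_
    rw [sum_ite_eq' univ l0 (fun l => f l k), if_pos (mem_univ _)]
  have h4 : ∀ (k0 l0 : Fin N) (f : Fin N → Fin N → ℤ),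
      ∑ k, ∑ l, (if k = k0 then (if l = l0 then f k l else 0) else 0) = f k0 l0 := by
    intro k0 l0 f
    rw [h2 k0 (fun k l => if l = l0 then f k l else 0), sum_ite_eq' univ l0 (fun l => f k0 l),
      if_pos (mem_univ _)]
  rw [h2 i (fun k l => s * (A k l * y l)), h3 i (fun l k => s * (A l k * y k)),
    h2 j (fun k l => t * (A k l * y l)), h3 j (fun l k => t * (A l k * y k)),
    h4 i j (fun k l => s * t * A k l), h4 j i (fun k l => s * t * A k l),
    h4 i i (fun k l => s * s * A k l), h4 j j (fun k l => t * t * A k l), hi, hj, hA j i,
    ← mul_sum, ← mul_sum]
  ring

theorem QV_two (G : GaussWord N) (w : Fin N → Option Bool) (i j : Fin N) (hij : i ≠ j) :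
    ∃ q Li Lj : ℤ, ∀ a b, QV G (update (update w i a) j b) =
      q + 2 * sv a * Li + 2 * sv b * Lj + 2 * sv a * sv b * adjm G i j := by
  classical
  set y : Fin N → ℤ := fun k => if k = i ∨ k = j then 0 else sv (w k) with hy
  refine ⟨∑ k, ∑ l, adjm G k l * (y k * y l), ∑ l, adjm G i l * y l, ∑ l, adjm G j l * y l,
    fun a b => ?_⟩
  have hself : ∀ k, adjm G k k = 0 := fun k => by unfold adjm; rw [if_neg (not_crosses_self G k)]
  rw [← quad_two (adjm G) (adjm_symm G) i j (hself i) (hself j) y (sv a) (sv b)]
  unfold QV
  have h1 : ∀ k, sv (update (update w i a) j b k) =
      y k + (if k = i then sv a else 0) + (if k = j then sv b else 0) := by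
    intro k
    by_cases hki : k = i
    · subst hki
      rw [update_of_ne hij, update_self]
      simp [hy, hij]
    · by_cases hkj : k = j
      · subst hkj
        rw [update_self]
        simp [hy, hki]
      · rw [update_of_ne hkj, update_of_ne hki]
        simp [hy, hki, hkj]
  simp only [h1]

theorem vset_two (w : Fin N → Option Bool) (i j : Fin N) (a b a' b' : Option Bool)
    (ha : a = none ↔ a' = none) (hb : b = none ↔ b' = none) :
    vset (update (update w i a) j b) = vset (update (update w i a') j b') := by
  ext c
  unfold vset
  simp only [mem_filter, mem_univ, true_and]
  by_cases hcj : c = j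
  · subst hcj
    rw [update_self, update_self]
    exact hb
  · rw [update_of_ne hcj, update_of_ne hcj]
    by_cases hci : c = i
    · subst hci
      rw [update_self, update_self]
      exact ha
    · rw [update_of_ne hci, update_of_ne hci]

theorem nine (G : GaussWord N) (F : ℤ[T;T⁻¹]) (i j : Fin N) (h : Crosses G i j)
    (w : Fin N → Option Bool) [DecidableEq ℤ[T;T⁻¹]] :
    ∑ a : Option Bool, ∑ b : Option Bool, (if fV G (update (update w i a) j b) = F then 1 else 0) ≤ 7 := by
  classical
  have hij : i ≠ j := by
    rintro rfl
    exact not_crosses_self G i h
  obtain ⟨K, hK⟩ := second_momentV G i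
  obtain ⟨q, Li, Lj, hQ⟩ := QV_two G w i j hij
  have hA : adjm G i j = 1 := by unfold adjm; rw [if_pos h]
  set c : ℤ := rho F 0 2 with hc
  have hval : ∀ a b, fV G (update (update w i a) j b) = F →
      c = K (vset (update (update w i a) j b)) - 12 * (q + 2 * sv a * Li + 2 * sv b * Lj + 2 * sv a * sv b) := by
    intro a b hab
    rw [hc, ← hab, hK, hQ, hA, mul_one]
  have v1 := vset_two w i j none (some true) none (some false) (by simp) (by simp)
  have v2 := vset_two w i j (some true) none (some false) none (by simp) (by simp)
  have v3 := vset_two w i j (some true) (some false) (some true) (some true) (by simp) (by simp)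
  have v4 := vset_two w i j (some false) (some true) (some true) (some true) (by simp) (by simp)
  have v5 := vset_two w i j (some false) (some false) (some true) (some true) (by simp) (by simp)
  have n1 := hval none (some true)
  have n2 := hval none (some false)
  have n3 := hval (some true) none
  have n4 := hval (some false) none
  have n5 := hval (some true) (some true)
  have n6 := hval (some true) (some false)
  have n7 := hval (some false) (some true)
  have n8 := hval (some false) (some false)
  rw [v1] at n1
  rw [v2] at n3
  rw [v3] at n6
  rw [v4] at n7
  rw [v5] at n8
  simp only [sv, sgn, if_true, Bool.false_eq_true, if_false, mul_zero, zero_mul, add_zero,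
    mul_one] at n1 n2 n3 n4 n5 n6 n7 n8
  simp only [Fintype.sum_option, Fintype.sum_bool]
  have hle : ∀ (p : Prop) [Decidable p], (if p then 1 else 0 : ℕ) ≤ 1 := by
    intro p _
    split_ifs <;> omega
  have hfour : (if fV G (update (update w i (some true)) j (some true)) = F then 1 else 0) +
      (if fV G (update (update w i (some true)) j (some false)) = F then 1 else 0) +
      (if fV G (update (update w i (some false)) j (some true)) = F then 1 else 0) +
      (if fV G (update (update w i (some false)) j (some false)) = F then 1 else 0) ≤ 3 := by
    by_contra hcon
    have h5 : fV G (update (update w i (some true)) j (some true)) = F := by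
      by_contra h
      rw [if_neg h] at hcon
      have := hle (fV G (update (update w i (some true)) j (some false)) = F)
      have := hle (fV G (update (update w i (some false)) j (some true)) = F)
      have := hle (fV G (update (update w i (some false)) j (some false)) = F)
      omega
    have h6 : fV G (update (update w i (some true)) j (some false)) = F := by
      by_contra h
      rw [if_neg h] at hcon
      have := hle (fV G (update (update w i (some true)) j (some true)) = F)
      have := hle (fV G (update (update w i (some false)) j (some true)) = F)
      have := hle (fV G (update (update w i (some false)) j (some false)) = F)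
      omega
    have h7 : fV G (update (update w i (some false)) j (some true)) = F := by
      by_contra h
      rw [if_neg h] at hcon
      have := hle (fV G (update (update w i (some true)) j (some true)) = F)
      have := hle (fV G (update (update w i (some true)) j (some false)) = F)
      have := hle (fV G (update (update w i (some false)) j (some false)) = F)
      omega
    have h8 : fV G (update (update w i (some false)) j (some false)) = F := by
      by_contra h
      rw [if_neg h] at hcon
      have := hle (fV G (update (update w i (some true)) j (some true)) = F)
      have := hle (fV G (update (update w i (some true)) j (some false)) = F)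
      have := hle (fV G (update (update w i (some false)) j (some true)) = F)
      omega
    have m5 := n5 h5
    have m6 := n6 h6
    have m7 := n7 h7
    have m8 := n8 h8
    omega
  have htwo : (if fV G (update (update w i none) j (some true)) = F then 1 else 0) +
      (if fV G (update (update w i none) j (some false)) = F then 1 else 0) +
      (if fV G (update (update w i (some true)) j none) = F then 1 else 0) +
      (if fV G (update (update w i (some false)) j none) = F then 1 else 0) = 4 →
      (if fV G (update (update w i (some true)) j (some true)) = F then 1 else 0) +
      (if fV G (update (update w i (some true)) j (some false)) = F then 1 else 0) +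
      (if fV G (update (update w i (some false)) j (some true)) = F then 1 else 0) +
      (if fV G (update (update w i (some false)) j (some false)) = F then 1 else 0) ≤ 2 := by
    intro h0
    have l1 := hle (fV G (update (update w i none) j (some true)) = F)
    have l2 := hle (fV G (update (update w i none) j (some false)) = F)
    have l3 := hle (fV G (update (update w i (some true)) j none) = F)
    have l4 := hle (fV G (update (update w i (some false)) j none) = F)
    have h1 : fV G (update (update w i none) j (some true)) = F := by
      by_contra h; rw [if_neg h] at h0; omega
    have h2 : fV G (update (update w i none) j (some false)) = F := by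
      by_contra h; rw [if_neg h] at h0; omega
    have h3 : fV G (update (update w i (some true)) j none) = F := by
      by_contra h; rw [if_neg h] at h0; omega
    have h4 : fV G (update (update w i (some false)) j none) = F := by
      by_contra h; rw [if_neg h] at h0; omega
    have m1 := n1 h1
    have m2 := n2 h2
    have m3 := n3 h3
    have m4 := n4 h4
    have hLi : Li = 0 := by linarith
    have hLj : Lj = 0 := by linarith
    subst hLi hLj
    simp only [mul_zero, add_zero] at n5 n6 n7 n8
    have l5 := hle (fV G (update (update w i (some true)) j (some true)) = F)
    have l6 := hle (fV G (update (update w i (some true)) j (some false)) = F)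
    have l7 := hle (fV G (update (update w i (some false)) j (some true)) = F)
    have l8 := hle (fV G (update (update w i (some false)) j (some false)) = F)
    by_cases h58 : fV G (update (update w i (some true)) j (some true)) = F ∨
        fV G (update (update w i (some false)) j (some false)) = F
    · have hz : c = K (vset (update (update w i (some true)) j (some true))) - 12 * (q + 2) := by
        rcases h58 with h | h
        · exact n5 h
        · have := n8 h
          linarith
      have h6 : ¬ fV G (update (update w i (some true)) j (some false)) = F := fun h => by
        have := n6 h; omega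
      have h7 : ¬ fV G (update (update w i (some false)) j (some true)) = F := fun h => by
        have := n7 h; omega
      rw [if_neg h6, if_neg h7]
      omega
    · rw [not_or] at h58
      rw [if_neg h58.1, if_neg h58.2]
      omega
  have l0 := hle (fV G (update (update w i none) j none) = F)
  have l1 := hle (fV G (update (update w i none) j (some true)) = F)
  have l2 := hle (fV G (update (update w i none) j (some false)) = F)
  have l3 := hle (fV G (update (update w i (some true)) j none) = F)
  have l4 := hle (fV G (update (update w i (some false)) j none) = F)
  omega

open Classical in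
/-- at most `7/9` of the virtual diagrams with a given shadow have a given bracket -/
theorem seven_ninths (G : GaussWord N) (F : ℤ[T;T⁻¹]) (i j : Fin N) (h : Crosses G i j) :
    9 * Nat.card {w : Fin N → Option Bool // fV G w = F} ≤ 7 * 3 ^ N := by
  have h1 := sum_update j (fun w : Fin N → Option Bool => if fV G w = F then 1 else 0)
  have h2 := sum_update i (fun w : Fin N → Option Bool => ∑ b, if fV G (update w j b) = F then 1 else 0)
  have h3 : ∑ w : Fin N → Option Bool, ∑ a : Option Bool, ∑ b : Option Bool,
      (if fV G (update (update w i a) j b) = F then 1 else 0) ≤ ∑ w : Fin N → Option Bool, 7 :=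
    sum_le_sum fun w _ => nine G F i j h w
  rw [h2, h1] at h3
  rw [sum_const, card_univ, Fintype.card_fun, Fintype.card_option, Fintype.card_bool, Fintype.card_fin,
    smul_eq_mul] at h3
  norm_num only at h3
  rw [Nat.card_eq_fintype_card, Fintype.card_subtype, card_filter]
  linarith

end Pool.Agent.Q179.RV
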