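import Pool.Agent.Q179.RV.Prob
import Pool.Agent.H832R2.JR.Classes

/-!
# The two cases: many disjoint crossing pairs, and few of them
-/

set_option autoImplicit false

namespace Pool.Agent.Q179.RV

open Finset Function Pool.Agent.H832R2.JR Pool.Agent.Q179.HS LaurentPolynomial

variable {N : ℕ}

theorem val_two (s : ℤ) : (univ.filter fun v : Fin 3 × Bool => val v = s).card ≤ 2 := by
  by_cases h : ∃ v0 : Fin 3 × Bool, val v0 = s
  · obtain ⟨v0, rfl⟩ := h
    have h1 : ∀ v0 : Fin 3 × Bool, (univ.filter fun v : Fin 3 × Bool => val v = val v0).card ≤ 2 := by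
      decide
    exact h1 v0
  · rw [filter_eq_empty_iff.2 (fun v _ hv => h ⟨v, hv⟩)]
    simp

/-- a quadratic form which is linear in a set `D` of at least `k` variables, all of them occurring in
mixed terms -/
theorem third_bound (A : Fin N → Fin N → ℤ) (hA : ∀ i j, A i j = A j i) (p : Fin N → Prop)
    [DecidablePred p] (hD : ∀ i, p i → ∀ j, p j → A i j = 0) (hD2 : ∀ i, p i → ∃ j, ¬ p j ∧ A i j ≠ 0)
    (hpos : 0 < Fintype.card {k // p k}) (c : (Fin N → Fin 3) → ℤ) :
    ((univ.filter fun x : Fin N → Fin 3 × Bool =>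
      ∑ i, ∑ j, A i j * (val (x i) * val (x j)) = c (fun i => (x i).1)).card : ℝ) ≤
      (1 / 3 + 8 / √(Fintype.card {k // p k} : ℝ)) * 6 ^ N := by
  let e := Equiv.piEquivPiSubtypeProd (fun k : Fin N => p k) (fun _ => Fin 3 × Bool)
  let lin : ({k // ¬ p k} → Fin 3 × Bool) → {k // p k} → ℤ := fun y k => ∑ j : {k // ¬ p k},
    A k j * val (y j)
  let K : ({k // ¬ p k} → Fin 3 × Bool) → ℤ := fun y => ∑ i : {k // ¬ p k}, ∑ j : {k // ¬ p k},
    A i j * (val (y i) * val (y j))
  let c' : ({k // ¬ p k} → Fin 3 × Bool) → ({k // p k} → Fin 3) → ℤ := fun y t =>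
    c (fun i => if h : p i then t ⟨i, h⟩ else (y ⟨i, h⟩).1) - K y
  have hQ : ∀ w : Fin N → Fin 3 × Bool, ∑ i, ∑ j, A i j * (val (w i) * val (w j)) =
      K (e w).2 + ∑ k : {k // p k}, val ((e w).1 k) * (2 * lin (e w).2 k) := by
    intro w
    have e1 : ∀ k, (e w).1 k = w k := fun k => rfl
    have e2 : ∀ k, (e w).2 k = w k := fun k => rfl
    have h1 : ∀ i, ∑ j, A i j * (val (w i) * val (w j)) =
        (∑ j : {k // p k}, A i j * (val (w i) * val (w j))) +
        ∑ j : {k // ¬ p k}, A i j * (val (w i) * val (w j)) := fun i =>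
      (Fintype.sum_subtype_add_sum_subtype (fun k => p k)
        (fun j => A i j * (val (w i) * val (w j)))).symm
    rw [← Fintype.sum_subtype_add_sum_subtype (fun k => p k)]
    simp only [h1, sum_add_distrib]
    have h2 : ∑ i : {k // p k}, ∑ j : {k // p k}, A i j * (val (w i) * val (w j)) = 0 :=
      sum_eq_zero fun i _ => sum_eq_zero fun j _ => by rw [hD i i.2 j j.2, zero_mul]
    have h3 : ∑ i : {k // ¬ p k}, ∑ j : {k // p k}, A i j * (val (w i) * val (w j)) =
        ∑ i : {k // p k}, ∑ j : {k // ¬ p k}, A i j * (val (w i) * val (w j)) := by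
      rw [sum_comm]
      refine sum_congr rfl fun i _ => sum_congr rfl fun j _ => ?_
      rw [hA j i]
      ring
    rw [h2, h3]
    have h4 : ∀ k : {k // p k}, val ((e w).1 k) * (2 * lin (e w).2 k) =
        (∑ j : {k // ¬ p k}, A k j * (val (w k) * val (w j))) +
        ∑ j : {k // ¬ p k}, A k j * (val (w k) * val (w j)) := by
      intro k
      simp only [lin, e1, e2]
      rw [← sum_add_distrib, mul_sum, mul_sum]
      refine sum_congr rfl fun j _ => ?_
      ring
    simp only [h4, sum_add_distrib, K, e2]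
    ring
  have hc' : ∀ w : Fin N → Fin 3 × Bool, c' (e w).2 (fun k => ((e w).1 k).1) =
      c (fun i => (w i).1) - K (e w).2 := by
    intro w
    simp only [c']
    congr 2
    funext i
    by_cases h : p i
    · rw [dif_pos h]; rfl
    · rw [dif_neg h]; rfl
  -- fibres
  have hcard : (univ.filter fun x : Fin N → Fin 3 × Bool =>
      ∑ i, ∑ j, A i j * (val (x i) * val (x j)) = c (fun i => (x i).1)).card =
      ∑ y : {k // ¬ p k} → Fin 3 × Bool, (univ.filter fun x : {k // p k} → Fin 3 × Bool =>
        ∑ k, val (x k) * (2 * lin y k) = c' y (fun k => (x k).1)).card := by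
    have h1 : (univ.filter fun x : Fin N → Fin 3 × Bool =>
        ∑ i, ∑ j, A i j * (val (x i) * val (x j)) = c (fun i => (x i).1)).card =
        (univ.filter fun q : ({k // p k} → Fin 3 × Bool) × ({k // ¬ p k} → Fin 3 × Bool) =>
          ∑ k, val (q.1 k) * (2 * lin q.2 k) = c' q.2 (fun k => (q.1 k).1)).card := by
      refine card_equiv e ?_
      intro w
      simp only [mem_filter, mem_univ, true_and]
      rw [hQ w, hc' w]
      constructor <;> intro h <;> linarith
    rw [h1, card_filter, Fintype.sum_prod_type_right]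
    refine sum_congr rfl fun y _ => ?_
    rw [card_filter]
  set k := Fintype.card {k // p k} with hk
  have hck : Fintype.card {k // p k} = k := rfl
  have hcN : k + Fintype.card {k // ¬ p k} = N := by
    rw [← hck]
    have h := Fintype.card_subtype_compl (fun k => p k)
    have h2 := Fintype.card_subtype_le (fun k => p k)
    rw [Fintype.card_fin] at h h2
    omega
  set M := Fintype.card {k // ¬ p k} with hM
  let r : ({k // ¬ p k} → Fin 3 × Bool) → ℕ := fun y =>
    (univ.filter fun k : {k // p k} => 2 * lin y k ≠ 0).card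
  have hfib : ∀ y, ((univ.filter fun x : {k // p k} → Fin 3 × Bool =>
      ∑ k, val (x k) * (2 * lin y k) = c' y (fun k => (x k).1)).card : ℝ) ≤
        (1 - r y / k + 8 / √(k : ℝ)) * 6 ^ k := by
    intro y
    exact lin_virtual (fun k : {k // p k} => 2 * lin y k) (c' y) hpos
  -- the average of r
  have hcM : Fintype.card ({k // ¬ p k} → Fin 3 × Bool) = 6 ^ M := by
    rw [Fintype.card_fun, Fintype.card_prod, Fintype.card_fin, Fintype.card_bool]
  have havg : 2 * ((k : ℝ) * 6 ^ M) ≤ 3 * ∑ y : {k // ¬ p k} → Fin 3 × Bool, (r y : ℝ) := by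
    have h1 : ∑ y : {k // ¬ p k} → Fin 3 × Bool, r y =
        ∑ i : {k // p k}, (univ.filter fun y : {k // ¬ p k} → Fin 3 × Bool => 2 * lin y i ≠ 0).card := by
      simp only [r, card_filter]
      rw [sum_comm]
    have h2 : ∀ i : {k // p k}, 2 * 6 ^ M ≤ 3 * (univ.filter fun y : {k // ¬ p k} → Fin 3 × Bool =>
        2 * lin y i ≠ 0).card := by
      intro i
      obtain ⟨j, hj, hij⟩ := hD2 i i.2
      have h3 := sum_update' (R := ℤ) (⟨j, hj⟩ : {k // ¬ p k})
        (fun y : {k // ¬ p k} → Fin 3 × Bool => if 2 * lin y i = 0 then 1 else 0)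
      have h4 : ∀ y : {k // ¬ p k} → Fin 3 × Bool,
          ∑ a : Fin 3 × Bool, (if 2 * lin (update y ⟨j, hj⟩ a) i = 0 then (1 : ℤ) else 0) ≤ 2 := by
        intro y
        have h5 : ∀ a, lin (update y ⟨j, hj⟩ a) i = lin y i - A i j * val (y ⟨j, hj⟩) + A i j * val a := by
          intro a
          have : lin (update y ⟨j, hj⟩ a) i - lin y i = A i j * val a - A i j * val (y ⟨j, hj⟩) := by
            simp only [lin]
            rw [← sum_sub_distrib, sum_eq_single ⟨j, hj⟩]
            · rw [update_self]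
            · intro b _ hb
              rw [update_of_ne hb]
              ring
            · simp
          linarith
        have h6 : (univ.filter fun a : Fin 3 × Bool => 2 * lin (update y ⟨j, hj⟩ a) i = 0).card ≤ 2 := by
          by_cases hex : ∃ a0 : Fin 3 × Bool, 2 * lin (update y ⟨j, hj⟩ a0) i = 0
          · obtain ⟨a0, ha0⟩ := hex
            refine (card_le_card ?_).trans (val_two (val a0))
            intro a ha
            rw [mem_filter] at ha ⊢
            refine ⟨mem_univ _, ?_⟩
            have h7 := ha.2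
            rw [h5] at h7 ha0
            have h8 : A i j * (val a - val a0) = 0 := by linarith
            rcases mul_eq_zero.1 h8 with h | h
            · exact absurd h hij
            · linarith
          · rw [filter_eq_empty_iff.2 (fun a _ ha => hex ⟨a, ha⟩)]
            simp
        rw [← natCast_card_filter]
        exact_mod_cast h6
      have h5 : ∑ y : {k // ¬ p k} → Fin 3 × Bool, ∑ a : Fin 3 × Bool,
          (if 2 * lin (update y ⟨j, hj⟩ a) i = 0 then (1 : ℤ) else 0) ≤ 2 * 6 ^ M := by
        calc _ ≤ ∑ y : {k // ¬ p k} → Fin 3 × Bool, (2 : ℤ) := sum_le_sum fun y _ => h4 y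
          _ = 2 * 6 ^ M := by
              rw [sum_const, card_univ, hcM, nsmul_eq_mul]
              push_cast
              ring
      have h6 : ((Fintype.card (Fin 3 × Bool) : ℕ) : ℤ) = 6 := by simp
      rw [h3, h6, ← natCast_card_filter] at h5
      have h7 : (univ.filter fun y : {k // ¬ p k} → Fin 3 × Bool => 2 * lin y i = 0).card +
          (univ.filter fun y : {k // ¬ p k} → Fin 3 × Bool => 2 * lin y i ≠ 0).card = 6 ^ M := by
        rw [card_filter_add_card_filter_not, card_univ, hcM]
      have h8 : ((univ.filter fun y : {k // ¬ p k} → Fin 3 × Bool => 2 * lin y i = 0).card : ℤ) +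
          ((univ.filter fun y : {k // ¬ p k} → Fin 3 × Bool => 2 * lin y i ≠ 0).card : ℤ) = 6 ^ M := by
        exact_mod_cast h7
      have h9 : 2 * (6 : ℤ) ^ M ≤
          3 * ((univ.filter fun y : {k // ¬ p k} → Fin 3 × Bool => 2 * lin y i ≠ 0).card : ℤ) := by
        linarith
      exact_mod_cast h9
    have h5 : 2 * (k * 6 ^ M) ≤ 3 * ∑ y : {k // ¬ p k} → Fin 3 × Bool, r y := by
      rw [h1, mul_sum]
      calc 2 * (k * 6 ^ M) = ∑ i : {k // p k}, 2 * 6 ^ M := by
            rw [sum_const, card_univ, hck, smul_eq_mul]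
            ring
        _ ≤ _ := sum_le_sum fun i _ => h2 i
    exact_mod_cast h5
  rw [hcard]
  push_cast
  have hk0 : (0 : ℝ) < k := by exact_mod_cast hpos
  calc (∑ y : {k // ¬ p k} → Fin 3 × Bool, ((univ.filter fun x : {k // p k} → Fin 3 × Bool =>
      ∑ k, val (x k) * (2 * lin y k) = c' y (fun k => (x k).1)).card : ℝ))
      ≤ ∑ y : {k // ¬ p k} → Fin 3 × Bool, (1 - r y / k + 8 / √(k : ℝ)) * 6 ^ k :=
        sum_le_sum fun y _ => hfib y
    _ = ((1 + 8 / √(k : ℝ)) * 6 ^ M - (∑ y : {k // ¬ p k} → Fin 3 × Bool, (r y : ℝ)) / k) * 6 ^ k := by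
        rw [← sum_mul]
        congr 1
        have : ∀ y : {k // ¬ p k} → Fin 3 × Bool, (1 - (r y : ℝ) / k + 8 / √(k : ℝ)) =
            (1 + 8 / √(k : ℝ)) - r y / k := fun y => by ring
        rw [sum_congr rfl (fun y _ => this y), sum_sub_distrib, sum_const, card_univ, hcM,
          ← sum_div, nsmul_eq_mul]
        push_cast
        ring
    _ ≤ ((1 + 8 / √(k : ℝ)) * 6 ^ M - 2 / 3 * 6 ^ M) * 6 ^ k := by
        have h6 : 2 / 3 * (6 : ℝ) ^ M ≤ (∑ y : {k // ¬ p k} → Fin 3 × Bool, (r y : ℝ)) / k := by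
          rw [le_div_iff₀ hk0]
          linarith
        have h7 : (0 : ℝ) ≤ 6 ^ k := by positivity
        exact mul_le_mul_of_nonneg_right (by linarith) h7
    _ = (1 / 3 + 8 / √(k : ℝ)) * 6 ^ N := by
        rw [← hcN, pow_add]
        ring

end Pool.Agent.Q179.RV
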